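import Mathlib

/-!
Two subsets of the symmetric group on four letters: the derangements and the elements of
order at most two.  The finite facts behind the reduction of a vertex of degree at most three.
-/

set_option autoImplicit false

namespace Pool.Agent.MPfe1b94

open Equiv

/-- `rel true` is the set of derangements, `rel false` the set of elements with square one. -/
def rel (t : Bool) (g : Perm (Fin 4)) : Bool :=
  match t with
  | true => (g 0 != 0) && (g 1 != 1) && (g 2 != 2) && (g 3 != 3)
  | false => (g (g 0) == 0) && (g (g 1) == 1) && (g (g 2) == 2) && (g (g 3) == 3)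

theorem rel_true_iff (g : Perm (Fin 4)) : rel true g = true ↔ ∀ i, g i ≠ i := by
  simp only [rel, Bool.and_eq_true, bne_iff_ne]
  constructor
  · rintro ⟨⟨⟨h0, h1⟩, h2⟩, h3⟩ i
    fin_cases i
    · exact h0
    · exact h1
    · exact h2
    · exact h3
  · intro h
    exact ⟨⟨⟨h 0, h 1⟩, h 2⟩, h 3⟩

theorem rel_false_iff (g : Perm (Fin 4)) : rel false g = true ↔ ∀ i, g (g i) = i := by
  simp only [rel, Bool.and_eq_true, beq_iff_eq]
  constructor
  · rintro ⟨⟨⟨h0, h1⟩, h2⟩, h3⟩ i
    fin_cases i
    · exact h0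
    · exact h1
    · exact h2
    · exact h3
  · intro h
    exact ⟨⟨⟨h 0, h 1⟩, h 2⟩, h 3⟩

theorem rel_inv (t : Bool) (g : Perm (Fin 4)) (h : rel t g = true) : rel t g⁻¹ = true := by
  cases t
  · rw [rel_false_iff] at *
    intro i
    rw [Perm.inv_eq_iff_eq, Perm.inv_eq_iff_eq]
    exact (h i).symm
  · rw [rel_true_iff] at *
    intro i hi
    rw [Perm.inv_eq_iff_eq] at hi
    exact h i hi.symm

set_option maxRecDepth 100000 in
theorem deg_two : ∀ (t1 t2 : Bool) (g : Perm (Fin 4)),
    ∃ x : Perm (Fin 4), rel t1 x = true ∧ rel t2 (g⁻¹ * x) = true := by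
  decide +kernel

set_option maxRecDepth 100000 in
theorem deg_three : ∀ (t1 t2 t3 : Bool) (g : Perm (Fin 4)), rel (xor t1 t2) g = true →
    ∀ r : Perm (Fin 4),
    ∃ x : Perm (Fin 4), rel t1 x = true ∧ rel t2 (g⁻¹ * x) = true ∧ rel t3 (r⁻¹ * x) = true := by
  decide +kernel

end Pool.Agent.MPfe1b94
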