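import Mathlib
import Pool.Agent.Work.MP_fe1b94_co.Perm4

/-!
Systems of constraints on maps from a finite set to the symmetric group on four letters, whose
underlying multigraph has at most `2 |S| - 2` edges inside every nonempty set `S`, are solvable.
-/

set_option autoImplicit false

namespace Pool.Agent.MPfe1b94

open Equiv

variable {V : Type*} [DecidableEq V]

/-- A constraint between the values at `a` and `b`. -/
structure Edg (V : Type*) where
  /-- first end -/
  a : V
  /-- second end -/
  b : V
  /-- voltage -/
  s : Perm (Fin 4)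
  /-- type -/
  t : Bool

/-- The constraint `e` holds for `π`. -/
def Sat (π : V → Perm (Fin 4)) (e : Edg V) : Prop :=
  rel e.t ((π e.b)⁻¹ * e.s * π e.a) = true

/-- The constraint has both ends in `S`. -/
def inside (S : Finset V) (e : Edg V) : Bool := decide (e.a ∈ S ∧ e.b ∈ S)

/-- The constraint has an end equal to `v`. -/
def inc (v : V) (e : Edg V) : Bool := decide (e.a = v ∨ e.b = v)

/-- Number of constraints inside `S`. -/
def cnt (L : List (Edg V)) (S : Finset V) : ℕ := L.countP (inside S)

theorem inside_iff (S : Finset V) (e : Edg V) : inside S e = true ↔ e.a ∈ S ∧ e.b ∈ S := by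
  simp [inside]

theorem inc_iff (v : V) (e : Edg V) : inc v e = true ↔ e.a = v ∨ e.b = v := by
  simp [inc]

theorem cnt_super (L : List (Edg V)) (X Y : Finset V) :
    cnt L X + cnt L Y ≤ cnt L (X ∪ Y) + cnt L (X ∩ Y) := by
  induction L with
  | nil => simp [cnt]
  | cons e L ih =>
    unfold cnt at *
    simp only [List.countP_cons]
    have key : (if inside X e = true then 1 else 0) + (if inside Y e = true then 1 else 0) ≤
        (if inside (X ∪ Y) e = true then 1 else 0) + (if inside (X ∩ Y) e = true then 1 else 0) := by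
      simp only [inside_iff, Finset.mem_union, Finset.mem_inter]
      by_cases h1 : e.a ∈ X <;> by_cases h2 : e.b ∈ X <;> by_cases h3 : e.a ∈ Y <;>
        by_cases h4 : e.b ∈ Y <;> simp [h1, h2, h3, h4]
    omega

/-- At most `2 |S| - 2` constraints inside each nonempty subset of `W`. -/
def Sparse (L : List (Edg V)) (W : Finset V) : Prop :=
  ∀ S ⊆ W, S.Nonempty → cnt L S + 2 ≤ 2 * S.card

theorem sum_inc_le (L : List (Edg V)) (W : Finset V) :
    ∑ v ∈ W, L.countP (inc v) ≤ 2 * L.length := by
  induction L with
  | nil => simp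
  | cons e L ih =>
    simp only [List.countP_cons, Finset.sum_add_distrib, List.length_cons]
    have key : ∑ v ∈ W, (if inc v e = true then 1 else 0) ≤ 2 := by
      calc ∑ v ∈ W, (if inc v e = true then 1 else 0)
          ≤ ∑ v ∈ W, ((if e.a = v then 1 else 0) + (if e.b = v then 1 else 0)) := by
            apply Finset.sum_le_sum
            intro v _
            simp only [inc_iff]
            by_cases h1 : e.a = v <;> by_cases h2 : e.b = v <;> simp [h1, h2]
        _ ≤ 2 := by
            rw [Finset.sum_add_distrib, Finset.sum_ite_eq, Finset.sum_ite_eq]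
            split_ifs <;> omega
    omega

/-- The part of a constraint at `v`: the other end, the voltage towards `v`, the type. -/
def half (v : V) (e : Edg V) : V × Perm (Fin 4) × Bool :=
  if e.b = v then (e.a, e.s, e.t) else (e.b, e.s⁻¹, e.t)

/-- The half constraint holds for value `y` at `v`. -/
def HSat (π : V → Perm (Fin 4)) (y : Perm (Fin 4)) (h : V × Perm (Fin 4) × Bool) : Prop :=
  rel h.2.2 (y⁻¹ * h.2.1 * π h.1) = true

theorem sat_of_half (π : V → Perm (Fin 4)) (v : V) (e : Edg V) (hi : inc v e = true)
    (h : HSat π (π v) (half v e)) : Sat π e := by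
  rw [inc_iff] at hi
  unfold HSat half at h
  unfold Sat
  by_cases hb : e.b = v
  · rw [if_pos hb] at h
    simp only at h
    rw [hb]
    exact h
  · rw [if_neg hb] at h
    simp only at h
    have ha : e.a = v := hi.resolve_right hb
    have := rel_inv _ _ h
    rw [ha]
    convert this using 2
    simp [mul_assoc]

theorem half_ne (v : V) (e : Edg V) (hne : e.a ≠ e.b) : (half v e).1 ≠ v := by
  unfold half
  by_cases hb : e.b = v
  · rw [if_pos hb]
    intro h
    simp only at h
    exact hne (h.trans hb.symm)
  · rw [if_neg hb]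
    exact hb

omit [DecidableEq V] in
theorem ext_two (π : V → Perm (Fin 4)) (h1 h2 : V × Perm (Fin 4) × Bool) :
    ∃ y, HSat π y h1 ∧ HSat π y h2 := by
  obtain ⟨x, hx1, hx2⟩ := deg_two h1.2.2 h2.2.2 ((h1.2.1 * π h1.1)⁻¹ * (h2.2.1 * π h2.1))
  refine ⟨h1.2.1 * π h1.1 * x, ?_, ?_⟩
  · unfold HSat
    have := rel_inv _ _ hx1
    convert this using 2
    group
  · unfold HSat
    have := rel_inv _ _ hx2
    convert this using 2
    group

omit [DecidableEq V] in
theorem ext_three (π : V → Perm (Fin 4)) (h1 h2 h3 : V × Perm (Fin 4) × Bool)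
    (hs : Sat π ⟨h2.1, h1.1, h1.2.1⁻¹ * h2.2.1, xor h1.2.2 h2.2.2⟩) :
    ∃ y, HSat π y h1 ∧ HSat π y h2 ∧ HSat π y h3 := by
  unfold Sat at hs
  simp only at hs
  have hg : rel (xor h1.2.2 h2.2.2) ((h1.2.1 * π h1.1)⁻¹ * (h2.2.1 * π h2.1)) = true := by
    convert hs using 2
    group
  obtain ⟨x, hx1, hx2, hx3⟩ := deg_three h1.2.2 h2.2.2 h3.2.2 _ hg
    ((h1.2.1 * π h1.1)⁻¹ * (h3.2.1 * π h3.1))
  refine ⟨h1.2.1 * π h1.1 * x, ?_, ?_, ?_⟩
  · unfold HSat
    have := rel_inv _ _ hx1
    convert this using 2
    group
  · unfold HSat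
    have := rel_inv _ _ hx2
    convert this using 2
    group
  · unfold HSat
    have := rel_inv _ _ hx3
    convert this using 2
    group

theorem half_inside (v : V) (e : Edg V) (hi : inc v e = true) (S : Finset V)
    (h : (half v e).1 ∈ S) : inside (insert v S) e = true := by
  rw [inc_iff] at hi
  rw [inside_iff]
  unfold half at h
  by_cases hb : e.b = v
  · rw [if_pos hb] at h
    exact ⟨Finset.mem_insert_of_mem h, by rw [hb]; exact Finset.mem_insert_self _ _⟩
  · rw [if_neg hb] at h
    have ha : e.a = v := hi.resolve_right hb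
    exact ⟨by rw [ha]; exact Finset.mem_insert_self _ _, Finset.mem_insert_of_mem h⟩

theorem finish (π0 : V → Perm (Fin 4)) (v : V) (y : Perm (Fin 4)) (L : List (Edg V))
    (hloop : ∀ e ∈ L, e.a ≠ e.b)
    (h0 : ∀ e ∈ L.filter (fun e => !inc v e), Sat π0 e)
    (h1 : ∀ e ∈ L.filter (inc v), HSat π0 y (half v e)) :
    ∃ π : V → Perm (Fin 4), ∀ e ∈ L, Sat π e := by
  refine ⟨Function.update π0 v y, fun e he => ?_⟩
  by_cases hi : inc v e = true
  · have := h1 e (List.mem_filter.mpr ⟨he, hi⟩)
    apply sat_of_half _ v e hi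
    unfold HSat at *
    rw [Function.update_self, Function.update_of_ne (half_ne v e (hloop e he))]
    exact this
  · have hs := h0 e (List.mem_filter.mpr ⟨he, by simpa using hi⟩)
    rw [inc_iff, not_or] at hi
    unfold Sat at *
    rw [Function.update_of_ne hi.1, Function.update_of_ne hi.2]
    exact hs

theorem sparse_cons (L : List (Edg V)) (W : Finset V) (e : Edg V) (hL : Sparse L W)
    (h : ∀ S ⊆ W, e.a ∈ S → e.b ∈ S → cnt L S + 3 ≤ 2 * S.card) : Sparse (e :: L) W := by
  intro S hSW hS
  have h0 := hL S hSW hS
  unfold cnt at *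
  rw [List.countP_cons]
  by_cases hin : inside S e = true
  · rw [if_pos hin]
    rw [inside_iff] at hin
    have := h S hSW hin.1 hin.2
    omega
  · rw [if_neg hin]
    omega

theorem solvable : ∀ (n : ℕ) (W : Finset V) (L : List (Edg V)), W.card = n →
    (∀ e ∈ L, e.a ∈ W ∧ e.b ∈ W) → Sparse L W →
    ∃ π : V → Perm (Fin 4), ∀ e ∈ L, Sat π e := by
  intro n
  induction n with
  | zero =>
    intro W L hW hL _
    have hW0 : W = ∅ := Finset.card_eq_zero.mp hW
    refine ⟨fun _ => 1, fun e he => ?_⟩
    have := (hL e he).1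
    rw [hW0] at this
    exact absurd this (Finset.notMem_empty _)
  | succ n ih =>
    intro W L hW hL hS
    have hne : W.Nonempty := by
      rw [← Finset.card_pos]
      omega
    have htot : L.length + 2 ≤ 2 * W.card := by
      have h1 := hS W (Finset.Subset.refl _) hne
      have hc : cnt L W = L.length := by
        unfold cnt
        rw [List.countP_eq_length]
        intro e he
        rw [inside_iff]
        exact hL e he
      omega
    obtain ⟨v, hvW, hdeg⟩ : ∃ v ∈ W, L.countP (inc v) ≤ 3 := by
      by_contra hcon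
      push Not at hcon
      have h1 : ∑ v ∈ W, 4 ≤ ∑ v ∈ W, L.countP (inc v) :=
        Finset.sum_le_sum (fun v hv => hcon v hv)
      have h2 := sum_inc_le L W
      rw [Finset.sum_const, smul_eq_mul] at h1
      omega
    have hloop : ∀ e ∈ L, e.a ≠ e.b := by
      intro e he hab
      have h1 := hS {e.a} (Finset.singleton_subset_iff.mpr (hL e he).1)
        (Finset.singleton_nonempty _)
      rw [Finset.card_singleton] at h1
      have h2 : 0 < cnt L {e.a} := by
        unfold cnt
        rw [List.countP_pos_iff]
        refine ⟨e, he, ?_⟩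
        rw [inside_iff]
        exact ⟨Finset.mem_singleton_self _, by rw [← hab]; exact Finset.mem_singleton_self _⟩
      omega
    have hcard : (W.erase v).card = n := by
      rw [Finset.card_erase_of_mem hvW]
      omega
    have hsplit : ∀ S, cnt L S = cnt (L.filter (inc v)) S +
        cnt (L.filter (fun e => !inc v e)) S := by
      intro S
      unfold cnt
      exact List.countP_eq_countP_filter_add L (inside S) (inc v)
    have hL0 : ∀ e ∈ L.filter (fun e => !inc v e), e.a ∈ W.erase v ∧ e.b ∈ W.erase v := by
      intro e he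
      rw [List.mem_filter] at he
      have h1 := hL e he.1
      have h2 : ¬ inc v e = true := by simpa using he.2
      rw [inc_iff, not_or] at h2
      exact ⟨Finset.mem_erase.mpr ⟨h2.1, h1.1⟩, Finset.mem_erase.mpr ⟨h2.2, h1.2⟩⟩
    have hS0 : Sparse (L.filter (fun e => !inc v e)) (W.erase v) := by
      intro S hSW hSn
      have h1 := hS S (hSW.trans (Finset.erase_subset _ _)) hSn
      have h2 := hsplit S
      omega
    have hhalf : ∀ e ∈ L.filter (inc v), (half v e).1 ∈ W.erase v := by
      intro e he
      rw [List.mem_filter] at he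
      refine Finset.mem_erase.mpr ⟨half_ne v e (hloop e he.1), ?_⟩
      unfold half
      split_ifs
      · exact (hL e he.1).1
      · exact (hL e he.1).2
    rw [List.countP_eq_length_filter] at hdeg
    have hinc : ∀ e ∈ L.filter (inc v), inc v e = true := fun e he => (List.mem_filter.mp he).2
    generalize hI : L.filter (inc v) = I at *
    match I, hdeg with
    | [], _ =>
      obtain ⟨π0, hπ0⟩ := ih _ _ hcard hL0 hS0
      exact finish π0 v 1 L hloop hπ0 (by rw [hI]; simp)
    | [e1], _ =>
      obtain ⟨π0, hπ0⟩ := ih _ _ hcard hL0 hS0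
      obtain ⟨y, hy, -⟩ := ext_two π0 (half v e1) (half v e1)
      exact finish π0 v y L hloop hπ0 (by rw [hI]; simpa using hy)
    | [e1, e2], _ =>
      obtain ⟨π0, hπ0⟩ := ih _ _ hcard hL0 hS0
      obtain ⟨y, hy1, hy2⟩ := ext_two π0 (half v e1) (half v e2)
      exact finish π0 v y L hloop hπ0 (by rw [hI]; simpa using ⟨hy1, hy2⟩)
    | [e1, e2, e3], _ =>
      have hu1 := hhalf e1 (by simp)
      have hu2 := hhalf e2 (by simp)
      have hu3 := hhalf e3 (by simp)
      have hi1 := hinc e1 (by simp)
      have hi2 := hinc e2 (by simp)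
      have hi3 := hinc e3 (by simp)
      set L0 := L.filter (fun e => !inc v e) with hL0def
      have hfree : (∀ S ⊆ W.erase v, (half v e2).1 ∈ S → (half v e1).1 ∈ S →
            cnt L0 S + 3 ≤ 2 * S.card) ∨
          (∀ S ⊆ W.erase v, (half v e3).1 ∈ S → (half v e2).1 ∈ S →
            cnt L0 S + 3 ≤ 2 * S.card) := by
        by_contra hcon
        push Not at hcon
        obtain ⟨⟨X, hXW, hX2, hX1, hX⟩, ⟨Y, hYW, hY3, hY2, hY⟩⟩ := hcon
        have hsup := cnt_super L0 X Y
        have hinter : cnt L0 (X ∩ Y) + 2 ≤ 2 * (X ∩ Y).card :=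
          hS0 _ (Finset.inter_subset_left.trans hXW) ⟨_, Finset.mem_inter.mpr ⟨hX2, hY2⟩⟩
        have hcards := Finset.card_union_add_card_inter X Y
        have hUW : X ∪ Y ⊆ W.erase v := Finset.union_subset hXW hYW
        have hvU : v ∉ X ∪ Y := fun h => (Finset.mem_erase.mp (hUW h)).1 rfl
        have hbig := hS (insert v (X ∪ Y))
          (Finset.insert_subset hvW (hUW.trans (Finset.erase_subset _ _)))
          (Finset.insert_nonempty _ _)
        rw [Finset.card_insert_of_notMem hvU, hsplit] at hbig
        have hthree : cnt [e1, e2, e3] (insert v (X ∪ Y)) = 3 := by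
          unfold cnt
          have g1 := half_inside v e1 hi1 (X ∪ Y) (Finset.mem_union_left _ hX1)
          have g2 := half_inside v e2 hi2 (X ∪ Y) (Finset.mem_union_left _ hX2)
          have g3 := half_inside v e3 hi3 (X ∪ Y) (Finset.mem_union_right _ hY3)
          simp [g1, g2, g3]
        have hmono : cnt L0 (X ∪ Y) ≤ cnt L0 (insert v (X ∪ Y)) := by
          unfold cnt
          apply List.countP_mono_left
          intro e _ he
          rw [inside_iff] at *
          exact ⟨Finset.mem_insert_of_mem he.1, Finset.mem_insert_of_mem he.2⟩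
        omega
      rcases hfree with hfree | hfree
      · obtain ⟨π0, hπ0⟩ := ih (W.erase v)
          (⟨(half v e2).1, (half v e1).1, (half v e1).2.1⁻¹ * (half v e2).2.1,
            xor (half v e1).2.2 (half v e2).2.2⟩ :: L0) hcard
          (by
            intro e he
            rcases List.mem_cons.mp he with rfl | he
            · exact ⟨hu2, hu1⟩
            · exact hL0 e he)
          (sparse_cons _ _ _ hS0 hfree)
        obtain ⟨y, hy1, hy2, hy3⟩ := ext_three π0 (half v e1) (half v e2) (half v e3)
          (hπ0 _ (List.mem_cons_self ..))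
        exact finish π0 v y L hloop (fun e he => hπ0 e (List.mem_cons_of_mem _ he))
          (by rw [hI]; simpa using ⟨hy1, hy2, hy3⟩)
      · obtain ⟨π0, hπ0⟩ := ih (W.erase v)
          (⟨(half v e3).1, (half v e2).1, (half v e2).2.1⁻¹ * (half v e3).2.1,
            xor (half v e2).2.2 (half v e3).2.2⟩ :: L0) hcard
          (by
            intro e he
            rcases List.mem_cons.mp he with rfl | he
            · exact ⟨hu3, hu2⟩
            · exact hL0 e he)
          (sparse_cons _ _ _ hS0 hfree)
        obtain ⟨y, hy2, hy3, hy1⟩ := ext_three π0 (half v e2) (half v e3) (half v e1)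
          (hπ0 _ (List.mem_cons_self ..))
        exact finish π0 v y L hloop (fun e he => hπ0 e (List.mem_cons_of_mem _ he))
          (by rw [hI]; simpa using ⟨hy1, hy2, hy3⟩)
    | _ :: _ :: _ :: _ :: _, h =>
      simp only [List.length_cons] at h
      omega

end Pool.Agent.MPfe1b94
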