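import Mathlib

/-!
Definitions: covers, packings, the correspondence packing number, the list packing number,
rotation systems and planarity.
-/

set_option autoImplicit false

namespace Pool.Agent.MPfe1b94

/-- A `k`-fold cover of the simple graph `G`: for each edge `uv` a matching between the colours
of `u` and the colours of `v`, where every vertex has the colours `Fin k`.
`rel u v i j` says that colour `i` of `u` is matched with colour `j` of `v`
(only its values on adjacent pairs matter). -/
structure Cover {V : Type} (G : SimpleGraph V) (k : ℕ) where
  /-- the matchings -/
  rel : V → V → Fin k → Fin k → Prop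
  /-- the matching of an edge does not depend on its orientation -/
  symm : ∀ u v i j, G.Adj u v → rel u v i j → rel v u j i
  /-- a colour is matched with at most one colour -/
  unique : ∀ u v i j j', G.Adj u v → rel u v i j → rel u v i j' → j = j'

/-- A packing of a `k`-fold cover: `k` colourings, pairwise different at every vertex, none of
which uses two matched colours on an edge. -/
def Cover.HasPacking {V : Type} {G : SimpleGraph V} {k : ℕ} (M : Cover G k) : Prop :=
  ∃ φ : Fin k → V → Fin k,
    (∀ i u v, G.Adj u v → ¬ M.rel u v (φ i u) (φ i v)) ∧
    (∀ i j, i ≠ j → ∀ v, φ i v ≠ φ j v)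

/-- Every `k`-fold cover of `G` has a packing. -/
def CorrPackable {V : Type} (G : SimpleGraph V) (k : ℕ) : Prop :=
  ∀ M : Cover G k, M.HasPacking

/-- Every `k`-list assignment of `G` has a packing: `k` proper colourings from the lists,
pairwise different at every vertex. -/
def ListPackable {V : Type} (G : SimpleGraph V) (k : ℕ) : Prop :=
  ∀ (C : Type) (L : V → Finset C), (∀ v, (L v).card = k) →
    ∃ c : Fin k → V → C,
      (∀ i v, c i v ∈ L v) ∧
      (∀ i u v, G.Adj u v → c i u ≠ c i v) ∧
      (∀ i j, i ≠ j → ∀ v, c i v ≠ c j v)

/-- The correspondence packing number: the least `k ≥ 1` such that every `k`-fold cover of `G`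
has a packing. -/
noncomputable def corrPackingNumber {V : Type} (G : SimpleGraph V) : ℕ :=
  sInf {k | 1 ≤ k ∧ CorrPackable G k}

/-- The list packing number: the least `k ≥ 1` such that every `k`-list assignment of `G`
has a packing. -/
noncomputable def listPackingNumber {V : Type} (G : SimpleGraph V) : ℕ :=
  sInf {k | 1 ≤ k ∧ ListPackable G k}

/-- A rotation system of `H`: a permutation `next` of the darts (oriented edges) of `H` which
permutes cyclically the darts leaving each vertex. -/
structure RotationSystem {V : Type} (H : SimpleGraph V) where
  /-- the next dart around the tail -/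
  next : Equiv.Perm H.Dart
  /-- the tail is kept -/
  fst_next : ∀ d, (next d).fst = d.fst
  /-- all the darts with the same tail form one cycle -/
  cyclic : ∀ d d' : H.Dart, d.fst = d'.fst → ∃ n : ℕ, (next ^ n) d = d'

/-- The face permutation: reverse the dart, then turn to the next dart. -/
def RotationSystem.facePerm {V : Type} {H : SimpleGraph V} (R : RotationSystem H) :
    Equiv.Perm H.Dart :=
  (Function.Involutive.toPerm SimpleGraph.Dart.symm SimpleGraph.Dart.symm_involutive).trans R.next

/-- The faces: the orbits of the face permutation. -/
def RotationSystem.Face {V : Type} {H : SimpleGraph V} (R : RotationSystem H) : Type :=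
  Quotient (Equiv.Perm.SameCycle.setoid R.facePerm)

/-- A finite graph is planar when it has at most one vertex or is a spanning subgraph of a
connected graph which has a rotation system with `V - E + F = 2`. -/
def IsPlanar {V : Type} (G : SimpleGraph V) : Prop :=
  Subsingleton V ∨ ∃ H : SimpleGraph V, G ≤ H ∧ H.Connected ∧
    ∃ R : RotationSystem H, Nat.card V + Nat.card R.Face = Nat.card H.edgeSet + 2

end Pool.Agent.MPfe1b94
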