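import Mathlib
import Pool.Agent.Work.MP_fe1b94_co.Core
import Pool.Agent.Work.MP_fe1b94_co.Defs

/-!
Graphs with at most `2 |X| - 2` edges inside each nonempty set `X` have packings for all
fourfold covers.
-/

set_option autoImplicit false

namespace Pool.Agent.MPfe1b94

open Equiv

theorem list_of_corr {V : Type} (G : SimpleGraph V) (k : ℕ) (h : CorrPackable G k) :
    ListPackable G k := by
  classical
  intro C L hL
  let b : ∀ v, Fin k ≃ L v := fun v => (Finset.equivFinOfCardEq (hL v)).symm
  let M : Cover G k :=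
    { rel := fun u v i j => (b u i : C) = b v j
      symm := fun u v i j _ h => h.symm
      unique := by
        intro u v i j j' _ h h'
        apply (b v).injective
        apply Subtype.ext
        exact h.symm.trans h' }
  obtain ⟨φ, h1, h2⟩ := h M
  refine ⟨fun i v => b v (φ i v), fun i v => (b v (φ i v)).2, fun i u v huv => h1 i u v huv, ?_⟩
  intro i j hij v heq
  exact h2 i j hij v ((b v).injective (Subtype.ext heq))

theorem extend_partial (k : ℕ) (r : Fin k → Fin k → Prop)
    (h1 : ∀ i j j', r i j → r i j' → j = j') (h2 : ∀ i i' j, r i j → r i' j → i = i') :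
    ∃ σ : Perm (Fin k), ∀ i j, r i j → σ i = j := by
  classical
  have hf : ∀ x : {i // ∃ j, r i j}, ∃ j, r x.1 j := fun x => x.2
  choose f hf using hf
  have hg : ∀ y : {j // ∃ i, r i j}, ∃ i, r i y.1 := fun y => y.2
  choose g hg using hg
  let e : {i // ∃ j, r i j} ≃ {j // ∃ i, r i j} :=
    { toFun := fun x => ⟨f x, ⟨x.1, hf x⟩⟩
      invFun := fun y => ⟨g y, ⟨y.1, hg y⟩⟩
      left_inv := by
        intro x
        apply Subtype.ext
        exact h2 _ _ _ (hg ⟨f x, ⟨x.1, hf x⟩⟩) (hf x)
      right_inv := by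
        intro y
        apply Subtype.ext
        exact h1 _ _ _ (hf ⟨g y, ⟨y.1, hg y⟩⟩) (hg y) }
  refine ⟨e.extendSubtype, fun i j hij => ?_⟩
  rw [Equiv.extendSubtype_apply_of_mem e i ⟨j, hij⟩]
  exact h1 _ _ _ (hf ⟨i, ⟨j, hij⟩⟩) hij

theorem packable_of_sparse {V : Type} [Finite V] (G : SimpleGraph V)
    (h : ∀ X : Finset V, X.Nonempty →
      {e : Sym2 V | e ∈ G.edgeSet ∧ ∀ v ∈ e, v ∈ X}.ncard + 2 ≤ 2 * X.card) :
    CorrPackable G 4 := by
  classical
  have := Fintype.ofFinite V
  intro M
  have hσ : ∀ u v : V, ∃ σ : Perm (Fin 4), G.Adj u v → ∀ i j, M.rel u v i j → σ i = j := by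
    intro u v
    by_cases huv : G.Adj u v
    · obtain ⟨σ, hσ⟩ := extend_partial 4 (M.rel u v) (fun i j j' => M.unique u v i j j' huv)
        (fun i i' j hi hi' => M.unique v u j i i' huv.symm (M.symm u v i j huv hi)
          (M.symm u v i' j huv hi'))
      exact ⟨σ, fun _ => hσ⟩
    · exact ⟨1, fun h => absurd h huv⟩
  choose σ hσ using hσ
  let f : Sym2 V → Edg V := fun e => ⟨(Quot.out e).1, (Quot.out e).2,
    σ (Quot.out e).1 (Quot.out e).2, true⟩
  have hout : ∀ e : Sym2 V, s((Quot.out e).1, (Quot.out e).2) = e := fun e => Quot.out_eq e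
  have hmem : ∀ (e : Sym2 V) (X : Finset V), inside X (f e) = true ↔ ∀ v ∈ e, v ∈ X := by
    intro e X
    rw [inside_iff]
    constructor
    · rintro ⟨h1, h2⟩ v hv
      rw [← hout e, Sym2.mem_iff] at hv
      rcases hv with rfl | rfl
      · exact h1
      · exact h2
    · intro h
      constructor
      · exact h _ (Sym2.out_fst_mem e)
      · exact h _ (Sym2.out_snd_mem e)
  have hcnt : ∀ X : Finset V, cnt (G.edgeFinset.toList.map f) X =
      {e : Sym2 V | e ∈ G.edgeSet ∧ ∀ v ∈ e, v ∈ X}.ncard := by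
    intro X
    have h1 : {e : Sym2 V | e ∈ G.edgeSet ∧ ∀ v ∈ e, v ∈ X} =
        ((G.edgeFinset.filter (fun e => inside X (f e) = true) : Finset (Sym2 V)) :
          Set (Sym2 V)) := by
      ext e
      simp only [Set.mem_ofPred_eq, Finset.coe_filter, SimpleGraph.mem_edgeFinset, hmem]
    rw [h1, Set.ncard_coe_finset]
    unfold cnt
    rw [List.countP_map, List.countP_eq_length_filter]
    have h2 : (G.edgeFinset.toList.filter (inside X ∘ f)).length =
        (G.edgeFinset.filter (fun e => inside X (f e) = true)).card := by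
      have h3 : (inside X ∘ f) = fun e => decide (inside X (f e) = true) := by
        funext e
        simp
      rw [h3, ← Multiset.coe_card, ← Multiset.filter_coe, Finset.coe_toList]
      rfl
    exact h2
  obtain ⟨π, hπ⟩ := solvable _ (Finset.univ : Finset V) (G.edgeFinset.toList.map f) rfl
    (fun e _ => ⟨Finset.mem_univ _, Finset.mem_univ _⟩)
    (fun S _ hS => by rw [hcnt]; exact h S hS)
  have key : ∀ u v, G.Adj u v → ∀ i, ¬ M.rel u v (π u i) (π v i) := by
    intro u v huv i hrel
    have he : f s(u, v) ∈ G.edgeFinset.toList.map f := by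
      apply List.mem_map_of_mem
      rw [Finset.mem_toList, SimpleGraph.mem_edgeFinset, SimpleGraph.mem_edgeSet]
      exact huv
    have hs := hπ _ he
    unfold Sat at hs
    rw [rel_true_iff] at hs
    have hout' := hout s(u, v)
    rw [Sym2.eq_iff] at hout'
    rcases hout' with ⟨ha, hb⟩ | ⟨ha, hb⟩
    · apply hs i
      simp only [f, ha, hb, Perm.mul_apply]
      rw [hσ u v huv _ _ hrel]
      simp
    · apply hs i
      simp only [f, ha, hb, Perm.mul_apply]
      rw [hσ v u huv.symm _ _ (M.symm u v _ _ huv hrel)]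
      simp
  refine ⟨fun i v => π v i, fun i u v huv => key u v huv i, ?_⟩
  intro i j hij v heq
  exact hij ((π v).injective heq)

end Pool.Agent.MPfe1b94
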