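import Mathlib
import Pool.Agent.Work.MP_fe1b94_co.Pack

/-!
A triangle-free planar graph with eighteen vertices and a list assignment with lists of size
three which has no packing.
-/

set_option autoImplicit false

namespace Pool.Agent.MPfe1b94

open SimpleGraph

/-- Neighbours in cyclic order. -/
def nbL : Fin 18 → List (Fin 18) :=
  ![[13, 17, 7, 5], [3, 7, 12, 10], [8, 12, 17, 15], [5, 6, 1], [5, 6], [3, 0, 4], [3, 4, 7],
    [1, 6, 0], [10, 11, 2], [10, 11], [8, 1, 9], [8, 9, 12], [2, 11, 1], [15, 16, 0], [15, 16],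
    [13, 2, 14], [13, 14, 17], [0, 16, 2]]

/-- Index of the face to the side of a dart. -/
def fiL : Fin 18 → List (Fin 11) :=
  ![[2, 3, 1, 0], [2, 4, 1, 5], [2, 6, 1, 7], [2, 8, 4], [8, 0], [8, 2, 0], [4, 8, 0],
    [1, 4, 0], [2, 9, 6], [9, 5], [9, 2, 5], [6, 9, 5], [1, 6, 5], [2, 10, 3], [10, 7],
    [10, 2, 7], [3, 10, 7], [1, 3, 7]]

/-- Position of a dart in its face. -/
def poL : Fin 18 → List ℕ :=
  ![[0, 0, 0, 0], [6, 0, 2, 0], [3, 0, 4, 0], [7, 0, 3], [2, 2], [3, 8, 1], [2, 1, 3],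
    [1, 1, 4], [4, 0, 3], [2, 2], [3, 5, 1], [2, 1, 3], [3, 1, 4], [1, 0, 3], [2, 2],
    [3, 2, 1], [2, 1, 3], [5, 1, 4]]

/-- Representatives of the faces. -/
def repL : Fin 11 → Fin 18 × Fin 18 :=
  ![(0, 5), (0, 7), (0, 13), (0, 17), (1, 7), (1, 10), (2, 12), (2, 15), (3, 6), (8, 11),
    (13, 16)]

/-- Depth in a spanning tree. -/
def depL : Fin 18 → ℕ := ![0, 2, 2, 2, 2, 1, 2, 1, 3, 4, 3, 4, 3, 1, 3, 2, 2, 1]

/-- Parent in a spanning tree. -/
def paL : Fin 18 → Fin 18 := ![0, 7, 17, 5, 5, 0, 7, 0, 2, 10, 1, 8, 2, 0, 15, 13, 13, 0]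

/-- Next neighbour. -/
def nx (u v : Fin 18) : Fin 18 := (nbL u).getD (((nbL u).idxOf v + 1) % (nbL u).length) 0

/-- Previous neighbour. -/
def pv (u v : Fin 18) : Fin 18 :=
  (nbL u).getD (((nbL u).idxOf v + ((nbL u).length - 1)) % (nbL u).length) 0

/-- Face index. -/
def fi (u v : Fin 18) : Fin 11 := (fiL u).getD ((nbL u).idxOf v) 0

/-- Position. -/
def po (u v : Fin 18) : ℕ := (poL u).getD ((nbL u).idxOf v) 0

/-- The example graph. -/
def G0 : SimpleGraph (Fin 18) where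
  Adj u v := v ∈ nbL u
  symm := by
    constructor
    decide +kernel
  loopless := by
    constructor
    decide +kernel

instance : DecidableRel G0.Adj := fun u v => inferInstanceAs (Decidable (v ∈ nbL u))

theorem nx_mem : ∀ u v, v ∈ nbL u → nx u v ∈ nbL u := by decide +kernel
theorem pv_mem : ∀ u v, v ∈ nbL u → pv u v ∈ nbL u := by decide +kernel
theorem pv_nx : ∀ u v, v ∈ nbL u → pv u (nx u v) = v := by decide +kernel
theorem nx_pv : ∀ u v, v ∈ nbL u → nx u (pv u v) = v := by decide +kernel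
theorem nx_all : ∀ u v w, v ∈ nbL u → w ∈ nbL u →
    w = v ∨ w = nx u v ∨ w = nx u (nx u v) ∨ w = nx u (nx u (nx u v)) := by decide +kernel

/-- Rotation of the example graph. -/
def rot0 : RotationSystem G0 where
  next :=
    { toFun := fun d => ⟨(d.fst, nx d.fst d.snd), nx_mem _ _ d.adj⟩
      invFun := fun d => ⟨(d.fst, pv d.fst d.snd), pv_mem _ _ d.adj⟩
      left_inv := fun d => Dart.ext _ _ (Prod.ext rfl (pv_nx _ _ d.adj))
      right_inv := fun d => Dart.ext _ _ (Prod.ext rfl (nx_pv _ _ d.adj)) }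
  fst_next := fun _ => rfl
  cyclic := by
    intro d d' h
    have hd' : d'.snd ∈ nbL d.fst := by
      rw [h]
      exact d'.adj
    rcases nx_all d.fst d.snd d'.snd d.adj hd' with h1 | h1 | h1 | h1
    · exact ⟨0, Dart.ext _ _ (Prod.ext h h1.symm)⟩
    · exact ⟨1, Dart.ext _ _ (Prod.ext h h1.symm)⟩
    · exact ⟨2, Dart.ext _ _ (Prod.ext h h1.symm)⟩
    · exact ⟨3, Dart.ext _ _ (Prod.ext h h1.symm)⟩

theorem fi_face : ∀ u v, v ∈ nbL u → fi v (nx v u) = fi u v := by decide +kernel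

theorem rep_ok : ∀ f, (repL f).2 ∈ nbL (repL f).1 ∧ fi (repL f).1 (repL f).2 = f := by
  decide +kernel

/-- Representative dart. -/
def repD (f : Fin 11) : G0.Dart := ⟨repL f, (rep_ok f).1⟩

theorem po_ok : ∀ x y, y ∈ nbL x →
    (po x y = 0 → repL (fi x y) = (x, y)) ∧
    (po x y ≠ 0 → x ∈ nbL (pv x y) ∧ po (pv x y) x + 1 = po x y ∧ fi (pv x y) x = fi x y) := by
  decide +kernel

theorem same_rep : ∀ (n : ℕ) (d : G0.Dart), po d.fst d.snd = n →
    rot0.facePerm.SameCycle (repD (fi d.fst d.snd)) d := by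
  intro n
  induction n with
  | zero =>
    intro d hd
    have h1 := (po_ok d.fst d.snd d.adj).1 hd
    have h2 : repD (fi d.fst d.snd) = d := Dart.ext _ _ h1
    rw [h2]
  | succ n ih =>
    intro d hd
    obtain ⟨h1, h2, h3⟩ := (po_ok d.fst d.snd d.adj).2 (by omega)
    let e : G0.Dart := ⟨(pv d.fst d.snd, d.fst), h1⟩
    have he := ih e (by
      change po (pv d.fst d.snd) d.fst = n
      omega)
    have hfe : fi e.fst e.snd = fi d.fst d.snd := h3
    rw [hfe] at he
    refine he.trans ⟨1, ?_⟩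
    rw [zpow_one]
    apply Dart.ext
    exact Prod.ext rfl (nx_pv _ _ d.adj)

theorem card_face0 : Nat.card rot0.Face = 11 := by
  have hinv : ∀ (n : ℕ) (d : G0.Dart), fi ((rot0.facePerm ^ n) d).fst ((rot0.facePerm ^ n) d).snd =
      fi d.fst d.snd := by
    intro n
    induction n with
    | zero => intro d; rfl
    | succ n ih =>
      intro d
      rw [pow_succ, Equiv.Perm.mul_apply, ih]
      exact fi_face d.fst d.snd d.adj
  let f : rot0.Face → Fin 11 := Quotient.lift (fun d : G0.Dart => fi d.fst d.snd) (by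
    intro d d' h
    have h' : rot0.facePerm.SameCycle d d' := h
    obtain ⟨n, hn⟩ := h'.exists_nat_pow_eq
    rw [← hn, hinv])
  have hf : Function.Bijective f := by
    constructor
    · intro p q
      induction p using Quotient.inductionOn with
      | _ d =>
        induction q using Quotient.inductionOn with
        | _ d' =>
          intro h
          have h' : fi d.fst d.snd = fi d'.fst d'.snd := h
          apply Quotient.sound
          have h1 := same_rep _ d rfl
          have h2 := same_rep _ d' rfl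
          rw [← h'] at h2
          exact h1.symm.trans h2
    · intro b
      exact ⟨Quotient.mk _ (repD b), (rep_ok b).2⟩
  rw [Nat.card_congr (Equiv.ofBijective f hf)]
  simp

theorem card_edge0 : Nat.card G0.edgeSet = 27 := by
  rw [Nat.card_eq_fintype_card, ← SimpleGraph.edgeFinset_card]
  decide +kernel

theorem tree0 : ∀ v, v ≠ 0 → v ∈ nbL (paL v) ∧ depL (paL v) < depL v := by decide +kernel

theorem reach0 : ∀ (n : ℕ) (v : Fin 18), depL v ≤ n → G0.Reachable 0 v := by
  intro n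
  induction n with
  | zero =>
    intro v hv
    by_cases h : v = 0
    · rw [h]
    · have := (tree0 v h).2
      omega
  | succ n ih =>
    intro v hv
    by_cases h : v = 0
    · rw [h]
    · obtain ⟨h1, h2⟩ := tree0 v h
      have h3 := ih (paL v) (by omega)
      have h4 : G0.Adj (paL v) v := h1
      exact h3.trans h4.reachable

theorem connected0 : G0.Connected := by
  constructor
  intro u v
  exact (reach0 _ u le_rfl).symm.trans (reach0 _ v le_rfl)

theorem planar0 : IsPlanar G0 := by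
  right
  refine ⟨G0, le_rfl, connected0, rot0, ?_⟩
  rw [card_face0, card_edge0, Nat.card_eq_fintype_card]
  rfl

theorem free0 : ∀ a b c, G0.Adj a b → G0.Adj b c → ¬ G0.Adj c a := by
  change ∀ a b c, b ∈ nbL a → c ∈ nbL b → ¬ a ∈ nbL c
  decide +kernel

/-- The lists of the example. -/
def lst0 : Fin 18 → Finset (Fin 4) :=
  ![{0, 1, 2}, {0, 1, 3}, {0, 2, 3}, {0, 1, 3}, {0, 1, 2}, {0, 1, 2}, {0, 1, 2}, {0, 1, 3},
    {0, 2, 3}, {0, 1, 3}, {0, 1, 3}, {0, 1, 3}, {0, 2, 3}, {0, 1, 2}, {0, 2, 3}, {0, 2, 3},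
    {0, 2, 3}, {0, 1, 2}]

/-- `f` is a cyclic shift of `(p, q, r)`. -/
def ev (p q r : Fin 4) (f : Fin 3 → Fin 4) : Bool :=
  (f 0 == p && f 1 == q && f 2 == r) || (f 0 == q && f 1 == r && f 2 == p) ||
    (f 0 == r && f 1 == p && f 2 == q)

/-- `f` is an ordering of the colours `p`, `q`, `r`. -/
def ordering (p q r : Fin 4) (f : Fin 3 → Fin 4) : Bool :=
  (f 0 != f 1) && (f 1 != f 2) && (f 0 != f 2) &&
    decide (∀ i, f i = p ∨ f i = q ∨ f i = r)

/-- No common value. -/
def dj (f g : Fin 3 → Fin 4) : Bool := decide (∀ i, f i ≠ g i)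

theorem same012 : ∀ f g : Fin 3 → Fin 4, ordering 0 1 2 f = true → ordering 0 1 2 g = true →
    dj f g = true → ev 0 1 2 f = ev 0 1 2 g := by decide +kernel

theorem same013 : ∀ f g : Fin 3 → Fin 4, ordering 0 1 3 f = true → ordering 0 1 3 g = true →
    dj f g = true → ev 0 1 3 f = ev 0 1 3 g := by decide +kernel

theorem same023 : ∀ f g : Fin 3 → Fin 4, ordering 0 2 3 f = true → ordering 0 2 3 g = true →
    dj f g = true → ev 0 2 3 f = ev 0 2 3 g := by decide +kernel

theorem cross1 : ∀ f g : Fin 3 → Fin 4, ordering 0 1 2 f = true → ordering 0 1 3 g = true →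
    dj f g = true → ev 0 1 2 f ≠ ev 0 1 3 g →
    ∀ i, f i = if g i = 3 then 2 else if g i = 0 then 1 else 0 := by decide +kernel

theorem cross2 : ∀ f g : Fin 3 → Fin 4, ordering 0 1 3 f = true → ordering 0 2 3 g = true →
    dj f g = true → ev 0 1 3 f ≠ ev 0 2 3 g →
    ∀ i, f i = if g i = 2 then 1 else if g i = 0 then 3 else 0 := by decide +kernel

theorem cross3 : ∀ f g : Fin 3 → Fin 4, ordering 0 2 3 f = true → ordering 0 1 2 g = true →
    dj f g = true → ev 0 2 3 f ≠ ev 0 2 1 g →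
    ∀ i, f i = if g i = 1 then 3 else if g i = 0 then 2 else 0 := by decide +kernel

theorem flip : ∀ f : Fin 3 → Fin 4, ordering 0 1 2 f = true → ev 0 1 2 f ≠ ev 0 2 1 f := by
  decide +kernel

/-- A gadget transports the parity. -/
theorem gadget (P Q : (Fin 3 → Fin 4) → Prop) (e e' : (Fin 3 → Fin 4) → Bool)
    (σ : Fin 4 → Fin 4)
    (hsame : ∀ f g, P f → P g → dj f g = true → e f = e g)
    (hsame' : ∀ f g, Q f → Q g → dj f g = true → e' f = e' g)
    (hcross : ∀ f g, P f → Q g → dj f g = true → e f ≠ e' g → ∀ i, f i = σ (g i))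
    (f0 f4 f2 f5 f1 f6 f7 : Fin 3 → Fin 4) (h0 : P f0) (h4 : P f4) (h2 : P f2) (h5 : P f5)
    (h1 : Q f1) (h6 : Q f6) (h7 : Q f7)
    (e04 : dj f0 f4 = true) (e42 : dj f4 f2 = true) (e25 : dj f2 f5 = true)
    (e41 : dj f4 f1 = true) (e51 : dj f5 f1 = true) (e06 : dj f0 f6 = true)
    (e56 : dj f5 f6 = true) (e17 : dj f1 f7 = true) (e67 : dj f6 f7 = true) : e f0 = e' f7 := by
  by_contra hne
  have a1 := hsame _ _ h0 h4 e04
  have a2 := hsame _ _ h4 h2 e42
  have a3 := hsame _ _ h2 h5 e25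
  have b1 := hsame' _ _ h1 h7 e17
  have b2 := hsame' _ _ h6 h7 e67
  have c1 := hcross _ _ h4 h1 e41 (by rw [b1, ← a1]; exact hne)
  have c2 := hcross _ _ h5 h1 e51 (by rw [b1, ← a3, ← a2, ← a1]; exact hne)
  have c3 := hcross _ _ h0 h6 e06 (by rw [b2]; exact hne)
  have c4 := hcross _ _ h5 h6 e56 (by rw [b2, ← a3, ← a2, ← a1]; exact hne)
  unfold dj at e04
  have hd := of_decide_eq_true e04 0
  apply hd
  rw [c3 0, ← c4 0, c2 0, ← c1 0]

theorem not_list_three : ¬ ListPackable G0 3 := by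
  intro h
  obtain ⟨c, hc1, hc2, hc3⟩ := h (Fin 4) lst0 (by decide +kernel)
  have hdj : ∀ u v, v ∈ nbL u → dj (fun i => c i u) (fun i => c i v) = true := by
    intro u v huv
    unfold dj
    exact decide_eq_true (fun i => hc2 i u v huv)
  have hne : ∀ v i j, i ≠ j → (c i v != c j v) = true := by
    intro v i j hij
    rw [bne_iff_ne]
    exact hc3 i j hij v
  have ho : ∀ (v : Fin 18) (p q r : Fin 4), lst0 v = {p, q, r} →
      ordering p q r (fun i => c i v) = true := by
    intro v p q r hv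
    unfold ordering
    rw [Bool.and_eq_true, Bool.and_eq_true, Bool.and_eq_true]
    refine ⟨⟨⟨hne v 0 1 (by decide), hne v 1 2 (by decide)⟩, hne v 0 2 (by decide)⟩, ?_⟩
    apply decide_eq_true
    intro i
    have := hc1 i v
    rw [hv] at this
    simpa using this
  have g1 := gadget (fun f => ordering 0 1 2 f = true) (fun f => ordering 0 1 3 f = true)
    (ev 0 1 2) (ev 0 1 3) (fun x => if x = 3 then 2 else if x = 0 then 1 else 0) same012 same013 cross1
    _ _ _ _ _ _ _ (ho 0 0 1 2 (by decide)) (ho 5 0 1 2 (by decide)) (ho 4 0 1 2 (by decide))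
    (ho 6 0 1 2 (by decide)) (ho 3 0 1 3 (by decide)) (ho 7 0 1 3 (by decide))
    (ho 1 0 1 3 (by decide))
    (hdj _ _ (by decide)) (hdj _ _ (by decide)) (hdj _ _ (by decide)) (hdj _ _ (by decide))
    (hdj _ _ (by decide)) (hdj _ _ (by decide)) (hdj _ _ (by decide)) (hdj _ _ (by decide))
    (hdj _ _ (by decide))
  have g2 := gadget (fun f => ordering 0 1 3 f = true) (fun f => ordering 0 2 3 f = true)
    (ev 0 1 3) (ev 0 2 3) (fun x => if x = 2 then 1 else if x = 0 then 3 else 0) same013 same023 cross2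
    _ _ _ _ _ _ _ (ho 1 0 1 3 (by decide)) (ho 10 0 1 3 (by decide)) (ho 9 0 1 3 (by decide))
    (ho 11 0 1 3 (by decide)) (ho 8 0 2 3 (by decide)) (ho 12 0 2 3 (by decide))
    (ho 2 0 2 3 (by decide))
    (hdj _ _ (by decide)) (hdj _ _ (by decide)) (hdj _ _ (by decide)) (hdj _ _ (by decide))
    (hdj _ _ (by decide)) (hdj _ _ (by decide)) (hdj _ _ (by decide)) (hdj _ _ (by decide))
    (hdj _ _ (by decide))
  have hsame021 : ∀ f g : Fin 3 → Fin 4, ordering 0 1 2 f = true → ordering 0 1 2 g = true →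
      dj f g = true → ev 0 2 1 f = ev 0 2 1 g := by decide +kernel
  have g3 := gadget (fun f => ordering 0 2 3 f = true) (fun f => ordering 0 1 2 f = true)
    (ev 0 2 3) (ev 0 2 1) (fun x => if x = 1 then 3 else if x = 0 then 2 else 0) same023 hsame021 cross3
    _ _ _ _ _ _ _ (ho 2 0 2 3 (by decide)) (ho 15 0 2 3 (by decide)) (ho 14 0 2 3 (by decide))
    (ho 16 0 2 3 (by decide)) (ho 13 0 1 2 (by decide)) (ho 17 0 1 2 (by decide))
    (ho 0 0 1 2 (by decide))
    (hdj _ _ (by decide)) (hdj _ _ (by decide)) (hdj _ _ (by decide)) (hdj _ _ (by decide))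
    (hdj _ _ (by decide)) (hdj _ _ (by decide)) (hdj _ _ (by decide)) (hdj _ _ (by decide))
    (hdj _ _ (by decide))
  exact flip _ (ho 0 0 1 2 (by decide)) ((g1.trans g2).trans g3)

theorem not_list_two : ¬ ListPackable G0 2 := by
  intro h
  obtain ⟨c, hc1, hc2, hc3⟩ := h (Fin 2) (fun _ => Finset.univ) (fun _ => rfl)
  have e1 : c 0 0 ≠ c 0 5 := hc2 0 0 5 (by decide)
  have e2 : c 0 5 ≠ c 0 4 := hc2 0 5 4 (by decide)
  have e3 : c 0 4 ≠ c 0 6 := hc2 0 4 6 (by decide)
  have e4 : c 0 6 ≠ c 0 7 := hc2 0 6 7 (by decide)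
  have e5 : c 0 7 ≠ c 0 0 := hc2 0 7 0 (by decide)
  have key : ∀ a b d e f : Fin 2, a ≠ b → b ≠ d → d ≠ e → e ≠ f → f = a := by decide
  exact e5 (key _ _ _ _ _ e1 e2 e3 e4)

theorem not_list_one : ¬ ListPackable G0 1 := by
  intro h
  obtain ⟨c, hc1, hc2, hc3⟩ := h (Fin 1) (fun _ => Finset.univ) (fun _ => rfl)
  exact hc2 0 0 5 (by decide) (Subsingleton.elim _ _)

end Pool.Agent.MPfe1b94
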