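import Mathlib
import Pool.Agent.Work.MP_fe1b94_co.Defs

/-!
In a connected graph with a rotation system of Euler characteristic two, every cycle modulo two
is the boundary of a set of faces.
-/

set_option autoImplicit false

namespace Pool.Agent.MPfe1b94

open SimpleGraph

section

variable {V : Type} {H : SimpleGraph V}

theorem facePerm_apply (R : RotationSystem H) (d : H.Dart) : R.facePerm d = R.next d.symm := rfl

instance finiteDart [Finite V] : Finite H.Dart := by
  classical
  have := Fintype.ofFinite V
  infer_instance

instance finiteFace [Finite V] (R : RotationSystem H) : Finite R.Face :=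
  inferInstanceAs (Finite (Quotient (Equiv.Perm.SameCycle.setoid R.facePerm)))

/-- The face of a dart. -/
def face (R : RotationSystem H) (d : H.Dart) : R.Face :=
  Quotient.mk (Equiv.Perm.SameCycle.setoid R.facePerm) d

theorem face_facePerm (R : RotationSystem H) (d : H.Dart) : face R (R.facePerm d) = face R d := by
  apply Quotient.sound
  change R.facePerm.SameCycle (R.facePerm d) d
  exact ⟨-1, by simp⟩

theorem next_pow_const {β : Type*} (R : RotationSystem H) (t : H.Dart → β)
    (h : ∀ d, t (R.next d) = t d) (n : ℕ) (d : H.Dart) : t ((R.next ^ n) d) = t d := by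
  induction n with
  | zero => simp
  | succ n ih => rw [pow_succ', Equiv.Perm.mul_apply, h, ih]

theorem same_tail_const {β : Type*} (R : RotationSystem H) (t : H.Dart → β)
    (h : ∀ d, t (R.next d) = t d) (d d' : H.Dart) (hd : d.fst = d'.fst) : t d = t d' := by
  obtain ⟨n, hn⟩ := R.cyclic d d' hd
  rw [← hn, next_pow_const R t h]

theorem const_of_invariant {β : Type*} (R : RotationSystem H) (hc : H.Connected)
    (t : H.Dart → β) (h : ∀ d, t (R.facePerm d) = t d) (h' : ∀ d, t d.symm = t d)
    (d d' : H.Dart) : t d = t d' := by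
  have hn : ∀ d, t (R.next d) = t d := by
    intro d
    have := h d.symm
    rw [facePerm_apply, Dart.symm_symm, h'] at this
    exact this
  have key : ∀ (v w : V) (p : H.Walk v w) (d d' : H.Dart), d.fst = v → d'.fst = w →
      t d = t d' := by
    intro v w p
    induction p with
    | nil =>
      intro d d' h1 h2
      exact same_tail_const R t hn d d' (h1.trans h2.symm)
    | @cons v u w huv p ih =>
      intro d d' h1 h2
      have e1 : t d = t ⟨(v, u), huv⟩ := same_tail_const R t hn _ _ h1
      rw [e1, ← h']
      exact ih _ _ rfl h2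
  obtain ⟨p⟩ := hc.preconnected d.fst d'.fst
  exact key _ _ p d d' rfl rfl

/-- A chosen dart of an edge. -/
noncomputable def dartOf (e : H.edgeSet) : H.Dart :=
  ⟨Quot.out e.1, by
    have h1 : s((Quot.out e.1).1, (Quot.out e.1).2) = e.1 := Quot.out_eq e.1
    rw [← mem_edgeSet, h1]
    exact e.2⟩

theorem dartOf_edge (e : H.edgeSet) : (dartOf e).edge = e.1 := Quot.out_eq e.1

/-- The edge of a dart. -/
def toEdge (d : H.Dart) : H.edgeSet := ⟨d.edge, d.edge_mem⟩

theorem dartOf_toEdge (d : H.Dart) : dartOf (toEdge d) = d ∨ dartOf (toEdge d) = d.symm := by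
  rw [← dart_edge_eq_iff, dartOf_edge]
  rfl

theorem sum_darts {M : Type*} [AddCommMonoid M] [Fintype H.Dart] [Fintype H.edgeSet]
    (g : H.Dart → M) :
    ∑ d, g d = ∑ e : H.edgeSet, (g (dartOf e) + g (dartOf e).symm) := by
  classical
  rw [← Finset.sum_fiberwise Finset.univ (toEdge (H := H)) g]
  apply Finset.sum_congr rfl
  intro e _
  have h1 : Finset.univ.filter (fun d : H.Dart => toEdge d = e) =
      {dartOf e, (dartOf e).symm} := by
    ext d
    simp only [Finset.mem_filter, Finset.mem_univ, true_and, Finset.mem_insert,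
      Finset.mem_singleton]
    rw [← dart_edge_eq_iff, dartOf_edge]
    constructor
    · intro h
      rw [← h]
      rfl
    · intro h
      exact Subtype.ext h
  rw [h1, Finset.sum_pair]
  exact (Dart.symm_ne _).symm

end

section

variable {V : Type} [Fintype V] [DecidableEq V] {H : SimpleGraph V} [Fintype H.Dart]
  [Fintype H.edgeSet] (R : RotationSystem H) [Fintype R.Face] [DecidableEq R.Face]

/-- Edge-vertex incidence matrix modulo two. -/
noncomputable def matM : Matrix H.edgeSet V (ZMod 2) := fun e v =>
  (if (dartOf e).fst = v then 1 else 0) + (if (dartOf e).snd = v then 1 else 0)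

/-- Edge-face incidence matrix modulo two. -/
noncomputable def matN : Matrix H.edgeSet R.Face (ZMod 2) := fun e f =>
  (if face R (dartOf e) = f then 1 else 0) + (if face R (dartOf e).symm = f then 1 else 0)

omit [Fintype H.Dart] [Fintype H.edgeSet] in
theorem matM_mulVec (s : V → ZMod 2) (e : H.edgeSet) :
    (matM (H := H)).mulVec s e = s (dartOf e).fst + s (dartOf e).snd := by
  simp [Matrix.mulVec, dotProduct, matM, add_mul, Finset.sum_add_distrib]

omit [Fintype V] [DecidableEq V] [Fintype H.Dart] [Fintype H.edgeSet] in
theorem matN_mulVec (t : R.Face → ZMod 2) (e : H.edgeSet) :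
    (matN R).mulVec t e = t (face R (dartOf e)) + t (face R (dartOf e).symm) := by
  simp [Matrix.mulVec, dotProduct, matN, add_mul, Finset.sum_add_distrib]

omit [Fintype V] in
theorem matMT_mulVec (z : H.Dart → ZMod 2) (hz : ∀ d, z d.symm = z d) (v : V) :
    ((matM (H := H)).transpose).mulVec (fun e => z (dartOf e)) v =
      ∑ d : H.Dart, if d.fst = v then z d else 0 := by
  rw [sum_darts]
  simp only [Matrix.mulVec, dotProduct, Matrix.transpose_apply, matM]
  apply Finset.sum_congr rfl
  intro e _
  rw [hz, add_mul]
  congr 1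
  · split_ifs <;> simp
  · have : (dartOf e).symm.fst = (dartOf e).snd := rfl
    rw [this]
    split_ifs <;> simp

omit [Fintype V] [Fintype H.edgeSet] [Fintype R.Face] [DecidableEq R.Face] in
theorem face_vertex_sum (t : H.Dart → ZMod 2) (ht : ∀ d, t (R.facePerm d) = t d) (v : V) :
    ∑ d : H.Dart, (if d.fst = v then t d + t d.symm else 0) = 0 := by
  have h1 : ∀ d : H.Dart, t d.symm = t (R.next d) := by
    intro d
    have := ht d.symm
    rw [facePerm_apply, Dart.symm_symm] at this
    exact this.symm
  have h2 : ∑ d : H.Dart, (if d.fst = v then t d + t d.symm else 0) =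
      ∑ d : H.Dart, (if d.fst = v then t d else 0) +
        ∑ d : H.Dart, (if (R.next d).fst = v then t (R.next d) else 0) := by
    rw [← Finset.sum_add_distrib]
    apply Finset.sum_congr rfl
    intro d _
    rw [R.fst_next, h1]
    split_ifs <;> simp
  rw [h2, Equiv.sum_comp R.next (fun d => if d.fst = v then t d else 0)]
  exact CharTwo.add_self_eq_zero _

theorem finrank_le_one_of_const {ι : Type*} [Fintype ι] (W : Submodule (ZMod 2) (ι → ZMod 2))
    (h : ∀ s ∈ W, ∀ i j, s i = s j) : Module.finrank (ZMod 2) W ≤ 1 := by
  have h1 : W ≤ Submodule.span (ZMod 2) {fun _ => 1} := by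
    intro s hs
    rw [Submodule.mem_span_singleton]
    rcases isEmpty_or_nonempty ι with he | ⟨⟨i⟩⟩
    · exact ⟨0, Subsingleton.elim _ _⟩
    · refine ⟨s i, ?_⟩
      funext j
      simp [h s hs i j]
  exact (Submodule.finrank_mono h1).trans ((finrank_span_le_card _).trans (by simp))

theorem exists_potential (hc : H.Connected)
    (hE : Nat.card V + Nat.card R.Face = Nat.card H.edgeSet + 2)
    (z : H.Dart → ZMod 2) (hz : ∀ d, z d.symm = z d)
    (hv : ∀ v, ∑ d : H.Dart, (if d.fst = v then z d else 0) = 0) :
    ∃ t : H.Dart → ZMod 2, (∀ d, t (R.facePerm d) = t d) ∧ ∀ d, z d = t d + t d.symm := by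
  rw [Nat.card_eq_fintype_card, Nat.card_eq_fintype_card, Nat.card_eq_fintype_card] at hE
  have hM := LinearMap.finrank_range_add_finrank_ker (matM (H := H)).mulVecLin
  have hN := LinearMap.finrank_range_add_finrank_ker (matN R).mulVecLin
  have hMT := LinearMap.finrank_range_add_finrank_ker (matM (H := H)).transpose.mulVecLin
  rw [Module.finrank_fintype_fun_eq_card] at hM hN hMT
  have hkM : Module.finrank (ZMod 2) (LinearMap.ker (matM (H := H)).mulVecLin) ≤ 1 := by
    apply finrank_le_one_of_const
    intro s hs i j
    rw [LinearMap.mem_ker, Matrix.mulVecLin_apply] at hs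
    have hadj : ∀ u v, H.Adj u v → s u = s v := by
      intro u v huv
      have h1 := congrFun hs (toEdge ⟨(u, v), huv⟩)
      rw [matM_mulVec] at h1
      have h1' := CharTwo.add_eq_zero.mp h1
      rcases dartOf_toEdge (⟨(u, v), huv⟩ : H.Dart) with h2 | h2
      · rw [h2] at h1'
        exact h1'
      · rw [h2] at h1'
        exact h1'.symm
    obtain ⟨p⟩ := hc.preconnected i j
    induction p with
    | nil => rfl
    | cons huv p ih => exact (hadj _ _ huv).trans ih
  have hkN : Module.finrank (ZMod 2) (LinearMap.ker (matN R).mulVecLin) ≤ 1 := by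
    apply finrank_le_one_of_const
    intro t ht i j
    rw [LinearMap.mem_ker, Matrix.mulVecLin_apply] at ht
    obtain ⟨d, rfl⟩ := Quotient.exists_rep i
    obtain ⟨d', rfl⟩ := Quotient.exists_rep j
    refine const_of_invariant R hc (fun d => t (face R d)) ?_ ?_ d d'
    · intro d
      exact congrArg t (face_facePerm R d)
    · intro d
      have h1 := congrFun ht (toEdge d)
      rw [matN_mulVec] at h1
      have h1' := CharTwo.add_eq_zero.mp h1
      rcases dartOf_toEdge d with h2 | h2
      · rw [h2] at h1'
        exact h1'.symm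
      · rw [h2, Dart.symm_symm] at h1'
        exact h1'
  have hrank : Module.finrank (ZMod 2) (LinearMap.range (matM (H := H)).transpose.mulVecLin) =
      Module.finrank (ZMod 2) (LinearMap.range (matM (H := H)).mulVecLin) :=
    Matrix.rank_transpose (matM (H := H))
  have hle : LinearMap.range (matN R).mulVecLin ≤
      LinearMap.ker (matM (H := H)).transpose.mulVecLin := by
    rintro _ ⟨t, rfl⟩
    rw [LinearMap.mem_ker, Matrix.mulVecLin_apply, Matrix.mulVecLin_apply]
    funext v
    have h1 : (matN R).mulVec t = fun e => (fun d => t (face R d) + t (face R d.symm))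
        (dartOf e) := by
      funext e
      exact matN_mulVec R t e
    have h2 := matMT_mulVec (H := H) (fun d => t (face R d) + t (face R d.symm))
      (fun d => by rw [Dart.symm_symm, add_comm]) v
    rw [h1]
    exact h2.trans
      (face_vertex_sum R (fun d => t (face R d)) (fun d => congrArg t (face_facePerm R d)) v)
  have heq : LinearMap.range (matN R).mulVecLin =
      LinearMap.ker (matM (H := H)).transpose.mulVecLin := by
    apply Submodule.eq_of_le_of_finrank_le hle
    omega
  have hz' : (fun e => z (dartOf e)) ∈ LinearMap.range (matN R).mulVecLin := by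
    rw [heq, LinearMap.mem_ker, Matrix.mulVecLin_apply]
    funext v
    rw [matMT_mulVec z hz]
    exact hv v
  obtain ⟨t, ht⟩ := hz'
  refine ⟨fun d => t (face R d), fun d => congrArg t (face_facePerm R d), fun d => ?_⟩
  have h1 := congrFun ht (toEdge d)
  rw [Matrix.mulVecLin_apply, matN_mulVec] at h1
  rcases dartOf_toEdge d with h2 | h2
  · rw [h2] at h1
    exact h1.symm
  · rw [h2, Dart.symm_symm, hz] at h1
    rw [← h1, add_comm]

end

end Pool.Agent.MPfe1b94
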