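import Mathlib
import Pool.Agent.Work.MP_fe1b94_co.Potential

/-!
A triangle-free planar graph has at most `2 |X| - 2` edges inside each nonempty vertex set `X`.
-/

set_option autoImplicit false

namespace Pool.Agent.MPfe1b94

open SimpleGraph

section

variable {V : Type} [Fintype V] [DecidableEq V] {H : SimpleGraph V} [Fintype H.Dart]

omit [Fintype V] in
/-- A nonzero even set of edges of a triangle-free graph has at least four edges. -/
theorem four_le_weight (G : SimpleGraph V) (hfree : ∀ a b c, G.Adj a b → G.Adj b c → ¬ G.Adj c a)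
    (S : Finset (Sym2 V)) (hSG : ∀ e ∈ S, e ∈ G.edgeSet)
    (z : H.Dart → ZMod 2) (hz : ∀ d, z d.symm = z d)
    (hv : ∀ v, ∑ d : H.Dart, (if d.fst = v then z d else 0) = 0)
    (hsupp : ∀ d, z d ≠ 0 → d.edge ∈ S) (T : Finset (Sym2 V))
    (hT : ∀ d, z d ≠ 0 → d.edge ∈ T) (d0 : H.Dart) (h0 : z d0 ≠ 0) : 4 ≤ T.card := by
  have hone : ∀ x : ZMod 2, x ≠ 0 → x = 1 := by decide
  have hnext : ∀ d : H.Dart, z d ≠ 0 → ∃ d' : H.Dart, d' ≠ d ∧ d'.fst = d.fst ∧ z d' ≠ 0 := by
    intro d hd
    by_contra hcon
    push Not at hcon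
    have h1 := hv d.fst
    rw [Finset.sum_eq_single d] at h1
    · rw [if_pos rfl] at h1
      exact hd h1
    · intro b _ hb
      by_cases hf : b.fst = d.fst
      · rw [if_pos hf]
        exact hcon b hb hf
      · rw [if_neg hf]
    · intro h
      exact absurd (Finset.mem_univ _) h
  have hadj : ∀ d : H.Dart, z d ≠ 0 → G.Adj d.fst d.snd := by
    intro d hd
    have := hSG _ (hsupp d hd)
    rw [show d.edge = s(d.fst, d.snd) from rfl, mem_edgeSet] at this
    exact this
  have hext : ∀ d : H.Dart, z d ≠ 0 → ∃ x, x ≠ d.fst ∧ x ≠ d.snd ∧ G.Adj d.snd x ∧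
      s(d.snd, x) ∈ T ∧ ∃ d' : H.Dart, d'.fst = d.snd ∧ d'.snd = x ∧ z d' ≠ 0 := by
    intro d hd
    obtain ⟨d', h1, h2, h3⟩ := hnext d.symm (by rw [hz]; exact hd)
    have h2' : d'.fst = d.snd := h2
    refine ⟨d'.snd, ?_, ?_, ?_, ?_, d', h2', rfl, h3⟩
    · intro hx
      apply h1
      apply Dart.ext
      exact Prod.ext h2' hx
    · intro hx
      exact (d'.adj).ne (h2'.trans hx.symm)
    · rw [← h2']
      exact hadj d' h3
    · rw [← h2']
      exact hT d' h3
  obtain ⟨x, hx1, hx2, hx3, hx4, d1, hd1, hd1', hd1z⟩ := hext d0 h0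
  obtain ⟨y, hy1, hy2, hy3, hy4, -⟩ := hext d1 hd1z
  obtain ⟨w, hw1, hw2, hw3, hw4, -⟩ := hext d0.symm (by rw [hz]; exact h0)
  have hs1 : d0.symm.fst = d0.snd := rfl
  have hs2 : d0.symm.snd = d0.fst := rfl
  rw [hd1, hd1'] at *
  rw [hs1] at hw1
  rw [hs2] at hw2 hw3 hw4
  set u := d0.fst with hu
  set v := d0.snd with hvv
  have hT0 : s(u, v) ∈ T := hT d0 h0
  have huv : G.Adj u v := hadj d0 h0
  have hne1 : s(u, v) ≠ s(v, x) := by
    rw [Ne, Sym2.eq_iff]
    rintro (⟨h1, h2⟩ | ⟨h1, h2⟩)
    · exact huv.ne h1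
    · exact hx1 h1.symm
  have hne2 : s(u, v) ≠ s(x, y) := by
    rw [Ne, Sym2.eq_iff]
    rintro (⟨h1, h2⟩ | ⟨h1, h2⟩)
    · exact hx1 h1.symm
    · exact hx2 h2.symm
  have hne3 : s(u, v) ≠ s(u, w) := by
    rw [Ne, Sym2.eq_iff]
    rintro (⟨h1, h2⟩ | ⟨h1, h2⟩)
    · exact hw1 h2.symm
    · exact hw2 h1.symm
  have hne4 : s(v, x) ≠ s(x, y) := by
    rw [Ne, Sym2.eq_iff]
    rintro (⟨h1, h2⟩ | ⟨h1, h2⟩)
    · exact hx2 h1.symm
    · exact hy1 h1.symm
  have hne5 : s(v, x) ≠ s(u, w) := by
    rw [Ne, Sym2.eq_iff]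
    rintro (⟨h1, h2⟩ | ⟨h1, h2⟩)
    · exact huv.ne h1.symm
    · exact hw1 h1.symm
  have hne6 : s(x, y) ≠ s(u, w) := by
    rw [Ne, Sym2.eq_iff]
    rintro (⟨h1, h2⟩ | ⟨h1, h2⟩)
    · exact hx1 h1
    · rw [h2] at hy3
      exact hfree u v x huv hx3 hy3
  have hcard : ({s(u, v), s(v, x), s(x, y), s(u, w)} : Finset (Sym2 V)).card = 4 := by
    rw [Finset.card_insert_of_notMem, Finset.card_insert_of_notMem,
      Finset.card_insert_of_notMem, Finset.card_singleton]
    · simpa using hne6
    · simp only [Finset.mem_insert, Finset.mem_singleton, not_or]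
      exact ⟨hne4, hne5⟩
    · simp only [Finset.mem_insert, Finset.mem_singleton, not_or]
      exact ⟨hne1, hne2, hne3⟩
  rw [← hcard]
  apply Finset.card_le_card
  intro e he
  simp only [Finset.mem_insert, Finset.mem_singleton] at he
  rcases he with rfl | rfl | rfl | rfl
  · exact hT0
  · exact hx4
  · exact hy4
  · exact hw4

end

section

variable {V : Type} [Fintype V] [DecidableEq V] {H : SimpleGraph V}

/-- Darts in the same class lie in faces which can be joined without crossing `S`. -/
def Rel (R : RotationSystem H) (S : Finset (Sym2 V)) (d d' : H.Dart) : Prop :=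
  d' = R.facePerm d ∨ (d.edge ∉ S ∧ d' = d.symm)

omit [Fintype V] [DecidableEq V] in
theorem mk_facePerm (R : RotationSystem H) (S : Finset (Sym2 V)) (d : H.Dart) :
    Quot.mk (Rel R S) (R.facePerm d) = Quot.mk (Rel R S) d :=
  (Quot.sound (show Rel R S d (R.facePerm d) from Or.inl rfl)).symm

omit [Fintype V] [DecidableEq V] in
theorem mk_symm (R : RotationSystem H) (S : Finset (Sym2 V)) (d : H.Dart) (hd : d.edge ∉ S) :
    Quot.mk (Rel R S) d.symm = Quot.mk (Rel R S) d :=
  (Quot.sound (show Rel R S d d.symm from Or.inr ⟨hd, rfl⟩)).symm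

theorem classes_weight (G : SimpleGraph V)
    (hfree : ∀ a b c, G.Adj a b → G.Adj b c → ¬ G.Adj c a)
    (R : RotationSystem H) (hc : H.Connected) (S : Finset (Sym2 V))
    (hSG : ∀ e ∈ S, e ∈ G.edgeSet) (hSH : ∀ e ∈ S, e ∈ H.edgeSet)
    [Fintype (Quot (Rel R S))] (hQ : 2 ≤ Fintype.card (Quot (Rel R S))) :
    2 * Fintype.card (Quot (Rel R S)) ≤ S.card := by
  classical
  have := Fintype.ofFinite H.Dart
  have hD : ∀ e : S, ∃ d : H.Dart, d.edge = e.1 := fun e =>
    ⟨dartOf ⟨e.1, hSH e.1 e.2⟩, dartOf_edge _⟩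
  choose D hD using hD
  let A : S → Quot (Rel R S) → Prop := fun e q =>
    ¬ ((Quot.mk (Rel R S) (D e) = q) ↔ (Quot.mk (Rel R S) (D e).symm = q))
  have h4 : ∀ q : Quot (Rel R S), 4 ≤ (Finset.univ.filter (fun e : S => A e q)).card := by
    intro q
    let t : H.Dart → ZMod 2 := fun d => if Quot.mk (Rel R S) d = q then 1 else 0
    have ht : ∀ d, t (R.facePerm d) = t d := by
      intro d
      simp only [t, mk_facePerm]
    have hz : ∀ d : H.Dart, t d.symm + t d.symm.symm = t d + t d.symm := by
      intro d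
      rw [Dart.symm_symm, add_comm]
    have hsupp : ∀ d : H.Dart, t d + t d.symm ≠ 0 → d.edge ∈ S := by
      intro d hd
      by_contra hdS
      apply hd
      have : t d.symm = t d := by simp only [t, mk_symm R S d hdS]
      rw [this]
      exact CharTwo.add_self_eq_zero _
    obtain ⟨d0, hd0⟩ : ∃ d : H.Dart, t d + t d.symm ≠ 0 := by
      by_contra hcon
      push Not at hcon
      have hconst : ∀ d d', t d = t d' := const_of_invariant R hc t ht
        (fun d => (CharTwo.add_eq_zero.mp (hcon d)).symm)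
      obtain ⟨q', hq'⟩ := Fintype.exists_ne_of_one_lt_card (lt_of_lt_of_le one_lt_two hQ) q
      obtain ⟨d, rfl⟩ := Quot.exists_rep q
      obtain ⟨d', rfl⟩ := Quot.exists_rep q'
      have := hconst d d'
      simp only [t, if_true, if_neg hq'] at this
      exact one_ne_zero this
    have hT : ∀ d : H.Dart, t d + t d.symm ≠ 0 → d.edge ∈
        (Finset.univ.filter (fun e : S => A e q)).map (Function.Embedding.subtype _) := by
      intro d hd
      rw [Finset.mem_map]
      refine ⟨⟨d.edge, hsupp d hd⟩, ?_, rfl⟩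
      rw [Finset.mem_filter]
      refine ⟨Finset.mem_univ _, ?_⟩
      intro hiff
      apply hd
      have h1 := hD ⟨d.edge, hsupp d hd⟩
      rw [show (⟨d.edge, hsupp d hd⟩ : S).1 = d.edge from rfl, dart_edge_eq_iff] at h1
      have h2 : (Quot.mk (Rel R S) d = q) ↔ (Quot.mk (Rel R S) d.symm = q) := by
        rcases h1 with h1 | h1
        · rw [h1] at hiff
          exact hiff
        · rw [h1, Dart.symm_symm] at hiff
          exact hiff.symm
      simp only [t, h2]
      exact CharTwo.add_self_eq_zero _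
    have h5 := four_le_weight G hfree S hSG (fun d => t d + t d.symm) hz
      (fun v => face_vertex_sum R t ht v) hsupp _ hT d0 hd0
    rwa [Finset.card_map] at h5
  have h2 : ∀ e : S, (Finset.univ.filter (fun q => A e q)).card ≤ 2 := by
    intro e
    have : Finset.univ.filter (fun q => A e q) ⊆
        {Quot.mk (Rel R S) (D e), Quot.mk (Rel R S) (D e).symm} := by
      intro q hq
      rw [Finset.mem_filter] at hq
      have hq2 := hq.2
      simp only [Finset.mem_insert, Finset.mem_singleton]
      by_contra hcon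
      rw [not_or] at hcon
      exact hq2 ⟨fun h => absurd h.symm hcon.1, fun h => absurd h.symm hcon.2⟩
    exact (Finset.card_le_card this).trans Finset.card_le_two
  have hsum : ∑ q : Quot (Rel R S), (Finset.univ.filter (fun e : S => A e q)).card =
      ∑ e : S, (Finset.univ.filter (fun q => A e q)).card := by
    simp only [Finset.card_filter]
    exact Finset.sum_comm
  have h6 : 4 * Fintype.card (Quot (Rel R S)) ≤
      ∑ q : Quot (Rel R S), (Finset.univ.filter (fun e : S => A e q)).card := by
    have := Finset.sum_le_sum (fun q (_ : q ∈ (Finset.univ : Finset (Quot (Rel R S)))) => h4 q)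
    rw [Finset.sum_const, Finset.card_univ, smul_eq_mul] at this
    omega
  have h7 : ∑ e : S, (Finset.univ.filter (fun q => A e q)).card ≤ 2 * S.card := by
    have := Finset.sum_le_sum (fun e (_ : e ∈ (Finset.univ : Finset S)) => h2 e)
    rw [Finset.sum_const, Finset.card_univ, smul_eq_mul, Fintype.card_coe] at this
    omega
  omega

theorem classes_dim (R : RotationSystem H) (hc : H.Connected)
    (hE : Nat.card V + Nat.card R.Face = Nat.card H.edgeSet + 2)
    (S : Finset (Sym2 V)) (hSH : ∀ e ∈ S, e ∈ H.edgeSet) (hSn : S.Nonempty)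
    (X : Finset V) (hSX : ∀ e ∈ S, ∀ v ∈ e, v ∈ X)
    [Fintype (Quot (Rel R S))] :
    S.card + 2 ≤ Fintype.card (Quot (Rel R S)) + X.card := by
  classical
  have := Fintype.ofFinite H.Dart
  have := Fintype.ofFinite R.Face
  have := Fintype.ofFinite H.edgeSet
  have hD : ∀ e : S, ∃ d : H.Dart, d.edge = e.1 := fun e =>
    ⟨dartOf ⟨e.1, hSH e.1 e.2⟩, dartOf_edge _⟩
  choose D hD using hD
  obtain ⟨e0, he0⟩ := hSn
  have hXn : X.Nonempty := by
    induction e0 with
    | _ a b => exact ⟨a, hSX _ he0 a (Sym2.mem_mk_left _ _)⟩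
  -- the vertex map
  let K : Matrix X S (ZMod 2) := fun v e => if v.1 ∈ e.1 then 1 else 0
  have hK : ∀ (z : S → ZMod 2) (v : X), K.mulVec z v = ∑ e : S, if v.1 ∈ e.1 then z e else 0 := by
    intro z v
    simp only [Matrix.mulVec, dotProduct, K, ite_mul, one_mul, zero_mul]
  let σ : (X → ZMod 2) →ₗ[ZMod 2] ZMod 2 := ∑ v : X, LinearMap.proj v
  have hσ : ∀ w : X → ZMod 2, σ w = ∑ v : X, w v := by
    intro w
    simp only [σ, LinearMap.sum_apply, LinearMap.proj_apply]
  have hone : ∀ e : S, ∑ v : X, (if v.1 ∈ e.1 then (1 : ZMod 2) else 0) = 0 := by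
    rintro ⟨e, he⟩
    induction e with
    | _ a b =>
      have hab : a ≠ b := by
        have := hSH _ he
        rw [mem_edgeSet] at this
        exact this.ne
      have ha : a ∈ X := hSX _ he a (Sym2.mem_mk_left _ _)
      have hb : b ∈ X := hSX _ he b (Sym2.mem_mk_right _ _)
      have h1 : ∀ v : X, (if v.1 ∈ s(a, b) then (1 : ZMod 2) else 0) =
          (if v = ⟨a, ha⟩ then 1 else 0) + (if v = ⟨b, hb⟩ then 1 else 0) := by
        intro v
        simp only [Sym2.mem_iff, Subtype.ext_iff]
        by_cases h1 : v.1 = a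
        · have h2 : v.1 ≠ b := fun h => hab (h1.symm.trans h)
          simp [h1, hab]
        · simp [h1]
      simp only [h1, Finset.sum_add_distrib, Finset.sum_ite_eq', Finset.mem_univ, if_true]
      decide
  have hrange : LinearMap.range K.mulVecLin ≤ LinearMap.ker σ := by
    rintro _ ⟨z, rfl⟩
    rw [LinearMap.mem_ker, hσ]
    simp only [Matrix.mulVecLin_apply, hK]
    rw [Finset.sum_comm]
    apply Finset.sum_eq_zero
    intro e _
    have : ∀ v : X, (if v.1 ∈ e.1 then z e else 0) = (if v.1 ∈ e.1 then (1 : ZMod 2) else 0) * z e := by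
      intro v
      split_ifs <;> simp
    simp only [this, ← Finset.sum_mul, hone, zero_mul]
  have hkσ : Module.finrank (ZMod 2) (LinearMap.ker σ) + 1 = X.card := by
    have h1 := LinearMap.finrank_range_add_finrank_ker σ
    have h2 : LinearMap.range σ = ⊤ := by
      rw [LinearMap.range_eq_top]
      intro y
      obtain ⟨x, hx⟩ := hXn
      refine ⟨Pi.single ⟨x, hx⟩ y, ?_⟩
      rw [hσ]
      simp
    rw [h2, finrank_top, Module.finrank_self, Module.finrank_fintype_fun_eq_card,
      Fintype.card_coe] at h1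
    omega
  have hkK := LinearMap.finrank_range_add_finrank_ker K.mulVecLin
  rw [Module.finrank_fintype_fun_eq_card, Fintype.card_coe] at hkK
  have hmono := Submodule.finrank_mono hrange
  -- the class map
  let P : (Quot (Rel R S) → ZMod 2) →ₗ[ZMod 2] (S → ZMod 2) :=
    { toFun := fun t e => t (Quot.mk _ (D e)) + t (Quot.mk _ (D e).symm)
      map_add' := by
        intro t t'
        funext e
        simp only [Pi.add_apply]
        ring
      map_smul' := by
        intro c t
        funext e
        simp only [Pi.smul_apply, smul_eq_mul, RingHom.id_apply]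
        ring }
  have hPr := LinearMap.finrank_range_add_finrank_ker P
  rw [Module.finrank_fintype_fun_eq_card] at hPr
  have hker : 1 ≤ Module.finrank (ZMod 2) (LinearMap.ker P) := by
    rw [Submodule.one_le_finrank_iff]
    intro hbot
    have h1 : (fun _ => 1 : Quot (Rel R S) → ZMod 2) ∈ LinearMap.ker P := by
      rw [LinearMap.mem_ker]
      funext e
      change (1 : ZMod 2) + 1 = 0
      decide
    rw [hbot, Submodule.mem_bot] at h1
    have h2 := congrFun h1 (Quot.mk _ (D ⟨e0, he0⟩))
    exact one_ne_zero h2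
  have hle : LinearMap.ker K.mulVecLin ≤ LinearMap.range P := by
    intro z hz
    rw [LinearMap.mem_ker, Matrix.mulVecLin_apply] at hz
    let z' : H.Dart → ZMod 2 := fun d => if h : d.edge ∈ S then z ⟨d.edge, h⟩ else 0
    have hz'symm : ∀ d, z' d.symm = z' d := by
      intro d
      simp only [z', Dart.edge_symm]
    have hvert : ∀ v, ∑ d : H.Dart, (if d.fst = v then z' d else 0) = 0 := by
      intro v
      by_cases hvX : v ∈ X
      · let ψ : Sym2 V → ZMod 2 := fun e =>
          if h : e ∈ S then (if v ∈ e then z ⟨e, h⟩ else 0) else 0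
        have h1 : ∑ d : H.Dart, (if d.fst = v then z' d else 0) =
            ∑ e : H.edgeSet, ψ e.1 := by
          rw [sum_darts]
          apply Finset.sum_congr rfl
          intro e _
          have he : e.1 = s((dartOf e).fst, (dartOf e).snd) := (dartOf_edge e).symm
          have hne : (dartOf e).fst ≠ (dartOf e).snd := (dartOf e).adj.ne
          have hsy : (dartOf e).symm.fst = (dartOf e).snd := rfl
          rw [hz'symm, hsy]
          by_cases hS : e.1 ∈ S
          · have hz1 : z' (dartOf e) = z ⟨e.1, hS⟩ := by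
              simp only [z', dartOf_edge, hS, dif_pos]
            have hψ : ψ e.1 = if v ∈ e.1 then z ⟨e.1, hS⟩ else 0 := by
              simp only [ψ, hS, dif_pos]
            have hmem : v ∈ e.1 ↔ v = (dartOf e).fst ∨ v = (dartOf e).snd := by
              conv_lhs => rw [he]
              exact Sym2.mem_iff
            rw [hz1, hψ]
            by_cases ha : (dartOf e).fst = v
            · have hb : ¬ (dartOf e).snd = v := fun h => hne (ha.trans h.symm)
              rw [if_pos ha, if_neg hb, if_pos (hmem.mpr (Or.inl ha.symm)), add_zero]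
            · by_cases hb : (dartOf e).snd = v
              · rw [if_neg ha, if_pos hb, if_pos (hmem.mpr (Or.inr hb.symm)), zero_add]
              · rw [if_neg ha, if_neg hb, if_neg, add_zero]
                intro h
                rcases hmem.mp h with h | h
                · exact ha h.symm
                · exact hb h.symm
          · have hz1 : z' (dartOf e) = 0 := by
              simp only [z', dartOf_edge, hS, dif_neg, not_false_eq_true]
            have hψ : ψ e.1 = 0 := by
              simp only [ψ, hS, dif_neg, not_false_eq_true]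
            rw [hz1, hψ]
            simp
        have h2 : ∑ e : H.edgeSet, ψ e.1 = ∑ e ∈ H.edgeFinset, ψ e := by
          rw [← Finset.sum_coe_sort H.edgeFinset ψ]
          exact Fintype.sum_equiv (Equiv.subtypeEquivRight (fun e => mem_edgeFinset.symm)) _ _
            (fun e => rfl)
        have h3 : ∑ e ∈ H.edgeFinset, ψ e = ∑ e ∈ S, ψ e := by
          symm
          apply Finset.sum_subset
          · intro e he
            rw [mem_edgeFinset]
            exact hSH e he
          · intro e _ he
            simp only [ψ, he, dif_neg, not_false_eq_true]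
        have h4 : ∑ e ∈ S, ψ e = K.mulVec z ⟨v, hvX⟩ := by
          rw [hK, ← Finset.sum_coe_sort S ψ]
          apply Finset.sum_congr rfl
          intro e _
          simp only [ψ, e.2, dif_pos]
        rw [h1, h2, h3, h4, hz]
        rfl
      · apply Finset.sum_eq_zero
        intro d _
        by_cases hd : d.fst = v
        · rw [if_pos hd]
          have hdS : d.edge ∉ S := by
            intro hdS
            apply hvX
            rw [← hd]
            exact hSX _ hdS _ (Sym2.mem_mk_left _ _)
          simp only [z', hdS, dif_neg, not_false_eq_true]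
        · rw [if_neg hd]
    obtain ⟨t, ht1, ht2⟩ := exists_potential R hc hE z' hz'symm hvert
    refine ⟨fun q => Quot.lift t ?_ q, ?_⟩
    · intro d d' hdd'
      rcases hdd' with h | ⟨h1, h2⟩
      · rw [h, ht1]
      · have h3 := ht2 d
        have h4 : z' d = 0 := by
          simp only [z', h1, dif_neg, not_false_eq_true]
        rw [h4] at h3
        rw [h2]
        exact CharTwo.add_eq_zero.mp h3.symm
    · funext e
      change t (D e) + t (D e).symm = z e
      rw [← ht2]
      have hDe : (D e).edge ∈ S := by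
        rw [hD]
        exact e.2
      simp only [z', hDe, dif_pos]
      congr 1
      exact Subtype.ext (hD e)
  have hmono2 := Submodule.finrank_mono hle
  omega

end

theorem sparse_of_planar {V : Type} [Finite V] (G : SimpleGraph V) (hp : IsPlanar G)
    (hfree : ∀ a b c, G.Adj a b → G.Adj b c → ¬ G.Adj c a) (X : Finset V) (hX : X.Nonempty) :
    {e : Sym2 V | e ∈ G.edgeSet ∧ ∀ v ∈ e, v ∈ X}.ncard + 2 ≤ 2 * X.card := by
  classical
  have := Fintype.ofFinite V
  have hXc : 1 ≤ X.card := Finset.card_pos.mpr hX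
  rcases Set.eq_empty_or_nonempty {e : Sym2 V | e ∈ G.edgeSet ∧ ∀ v ∈ e, v ∈ X} with h0 | h0
  · rw [h0, Set.ncard_empty]
    omega
  rcases hp with hsub | ⟨H, hGH, hc, R, hE⟩
  · exfalso
    obtain ⟨e, he, -⟩ := h0
    induction e with
    | _ a b =>
      rw [mem_edgeSet] at he
      exact he.ne (Subsingleton.elim _ _)
  set S : Finset (Sym2 V) := (Set.toFinite {e : Sym2 V | e ∈ G.edgeSet ∧ ∀ v ∈ e, v ∈ X}).toFinset
    with hS
  have hmem : ∀ e, e ∈ S ↔ e ∈ G.edgeSet ∧ ∀ v ∈ e, v ∈ X := by
    intro e
    rw [hS, Set.Finite.mem_toFinset]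
    rfl
  have hcard : {e : Sym2 V | e ∈ G.edgeSet ∧ ∀ v ∈ e, v ∈ X}.ncard = S.card := by
    rw [hS, Set.ncard_eq_toFinset_card _ (Set.toFinite _)]
  rw [hcard]
  have hSG : ∀ e ∈ S, e ∈ G.edgeSet := fun e he => ((hmem e).mp he).1
  have hSH : ∀ e ∈ S, e ∈ H.edgeSet := fun e he => edgeSet_mono hGH (hSG e he)
  have hSX : ∀ e ∈ S, ∀ v ∈ e, v ∈ X := fun e he => ((hmem e).mp he).2
  have hSn : S.Nonempty := by
    obtain ⟨e, he⟩ := h0
    exact ⟨e, (hmem e).mpr he⟩
  have := Fintype.ofFinite (Quot (Rel R S))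
  have hdim := classes_dim R hc hE S hSH hSn X hSX
  by_cases hQ : 2 ≤ Fintype.card (Quot (Rel R S))
  · have hw := classes_weight G hfree R hc S hSG hSH hQ
    omega
  · omega

end Pool.Agent.MPfe1b94
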