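import Mathlib

set_option autoImplicit false

namespace Pool.Agent.Work.MP_fe1b94_co.H65

/-- A `k`-fold cover of `G`: to every edge `uv` a matching between `{u} × [k]` and `{v} × [k]`.
`M u v i j` says that `(u, i)` and `(v, j)` are matched. -/
structure Cover {V : Type} (G : SimpleGraph V) (k : ℕ) where
  /-- the matching relation -/
  M : V → V → Fin k → Fin k → Prop
  /-- it does not depend on the direction of the edge -/
  symm : ∀ u v i j, M u v i j → M v u j i
  /-- a colour at `u` is matched with at most one colour at `v` -/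
  uniq : ∀ u v i j j', G.Adj u v → M u v i j → M u v i j' → j = j'

/-- `φ` is an `M`-colouring: no edge of `G` has matched colours at its ends. -/
def Cover.IsColouring {V : Type} {G : SimpleGraph V} {k : ℕ} (M : Cover G k) (φ : V → Fin k) :
    Prop :=
  ∀ u v, G.Adj u v → ¬ M.M u v (φ u) (φ v)

/-- The cover has a packing: `k` pairwise disjoint colourings. -/
def Cover.HasPacking {V : Type} {G : SimpleGraph V} {k : ℕ} (M : Cover G k) : Prop :=
  ∃ φ : Fin k → V → Fin k, (∀ i, M.IsColouring (φ i)) ∧ ∀ v i j, i ≠ j → φ i v ≠ φ j v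

/-- `G` is planar: it has a straight-line drawing in the plane without crossings. -/
def IsPlanar {V : Type} (G : SimpleGraph V) : Prop :=
  ∃ p : V → ℝ × ℝ, Function.Injective p ∧
    (∀ a b c, G.Adj a b → p c ∉ openSegment ℝ (p a) (p b)) ∧
    ∀ a b c d, G.Adj a b → G.Adj c d → s(a, b) ≠ s(c, d) →
      Disjoint (openSegment ℝ (p a) (p b)) (openSegment ℝ (p c) (p d))

/-- If every `k`-fold cover has a packing then so has every `(k+1)`-fold cover, for `k ≥ 1`. -/
theorem packing_succ {V : Type} {G : SimpleGraph V} {k : ℕ} (hk : 1 ≤ k)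
    (h : ∀ M : Cover G k, M.HasPacking) (M : Cover G (k + 1)) : M.HasPacking := by
  obtain ⟨ψ, hψ, -⟩ := h
    { M := fun u v i j => M.M u v i.castSucc j.castSucc
      symm := fun u v i j hm => M.symm u v _ _ hm
      uniq := fun u v i j j' hadj h1 h2 => Fin.castSucc_injective _ (M.uniq u v _ _ _ hadj h1 h2) }
  set φ : V → Fin (k + 1) := fun v => (ψ ⟨0, hk⟩ v).castSucc with hφ
  have hcol : M.IsColouring φ := fun u v huv hm => hψ ⟨0, hk⟩ u v huv hm
  obtain ⟨χ, hχ, hχd⟩ := h
    { M := fun u v i j => M.M u v ((φ u).succAbove i) ((φ v).succAbove j)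
      symm := fun u v i j hm => M.symm u v _ _ hm
      uniq := fun u v i j j' hadj h1 h2 =>
        Fin.succAbove_right_injective (M.uniq u v _ _ _ hadj h1 h2) }
  refine ⟨Fin.cases φ (fun i v => (φ v).succAbove (χ i v)), ?_, ?_⟩
  · intro i
    refine Fin.cases ?_ ?_ i
    · exact hcol
    · intro i u v huv hm
      exact hχ i u v huv hm
  · intro v i j
    refine Fin.cases ?_ ?_ i
    · refine Fin.cases ?_ ?_ j
      · intro h; exact absurd rfl h
      · intro j _ h
        exact (Fin.succAbove_ne _ _).symm h
    · intro i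
      refine Fin.cases ?_ ?_ j
      · intro _ h
        exact (Fin.succAbove_ne _ _) h
      · intro j hij h
        exact hχd v i j (fun h' => hij (by rw [h'])) (Fin.succAbove_right_injective h)

theorem packing_mono {V : Type} {G : SimpleGraph V} {k l : ℕ} (hk : 1 ≤ k) (hkl : k ≤ l)
    (h : ∀ M : Cover G k, M.HasPacking) (M : Cover G l) : M.HasPacking := by
  induction l, hkl using Nat.le_induction with
  | base => exact h M
  | succ l hkl ih => exact packing_succ (hk.trans hkl) ih M

end Pool.Agent.Work.MP_fe1b94_co.H65
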