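import Mathlib

set_option autoImplicit false

/-!
Kernel-checked certificate for a gadget on a planar strip.
Everything is about maps `Fin 5 → Fin 5`.
-/

namespace Pool.Agent.Work.MP_fe1b94_co.H65

/-- maps of five colours -/
abbrev F5 := Fin 5 → Fin 5

/-- pointwise different -/
def Disc (a b : F5) : Prop := ∀ i, a i ≠ b i

/-- all five values -/
def allF (p : Fin 5 → Bool) : Bool := p 0 && (p 1 && (p 2 && (p 3 && p 4)))

/-- some of the five values -/
def anyF (p : Fin 5 → Bool) : Bool := p 0 || (p 1 || (p 2 || (p 3 || p 4)))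

theorem allF_iff (p : Fin 5 → Bool) : allF p = true ↔ ∀ i, p i = true := by
  simp only [allF, Bool.and_eq_true]
  constructor
  · rintro ⟨h0, h1, h2, h3, h4⟩ i
    fin_cases i <;> assumption
  · intro h
    exact ⟨h 0, h 1, h 2, h 3, h 4⟩

theorem anyF_iff (p : Fin 5 → Bool) : anyF p = true ↔ ∃ i, p i = true := by
  simp only [anyF, Bool.or_eq_true]
  constructor
  · rintro (h | h | h | h | h)
    exacts [⟨0, h⟩, ⟨1, h⟩, ⟨2, h⟩, ⟨3, h⟩, ⟨4, h⟩]
  · rintro ⟨i, h⟩
    fin_cases i
    · exact Or.inl h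
    · exact Or.inr (Or.inl h)
    · exact Or.inr (Or.inr (Or.inl h))
    · exact Or.inr (Or.inr (Or.inr (Or.inl h)))
    · exact Or.inr (Or.inr (Or.inr (Or.inr h)))

/-- is there an injective map avoiding the identity and the two given maps pointwise? -/
def free (b c : F5) : Bool :=
  anyF fun x0 => (x0 != 0 && (x0 != b 0 && x0 != c 0)) &&
  anyF fun x1 => (x1 != 1 && (x1 != b 1 && (x1 != c 1 && x1 != x0))) &&
  anyF fun x2 => (x2 != 2 && (x2 != b 2 && (x2 != c 2 && (x2 != x0 && x2 != x1)))) &&
  anyF fun x3 => (x3 != 3 && (x3 != b 3 && (x3 != c 3 && (x3 != x0 && (x3 != x1 && x3 != x2))))) &&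
  anyF fun x4 => (x4 != 4 && (x4 != b 4 && (x4 != c 4 &&
    (x4 != x0 && (x4 != x1 && (x4 != x2 && x4 != x3))))))

theorem free_of {b c x : F5} (hx : Function.Injective x) (h1 : Disc id x) (h2 : Disc b x)
    (h3 : Disc c x) : free b c = true := by
  have hn : ∀ i j : Fin 5, i ≠ j → x i ≠ x j := fun i j hij h => hij (hx h)
  simp only [free, anyF_iff, Bool.and_eq_true, bne_iff_ne]
  refine ⟨x 0, ⟨(h1 0).symm, (h2 0).symm, (h3 0).symm⟩, x 1, ⟨(h1 1).symm, (h2 1).symm,
    (h3 1).symm, hn _ _ (by decide)⟩, x 2, ⟨(h1 2).symm, (h2 2).symm, (h3 2).symm,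
    hn _ _ (by decide), hn _ _ (by decide)⟩, x 3, ⟨(h1 3).symm, (h2 3).symm, (h3 3).symm,
    hn _ _ (by decide), hn _ _ (by decide), hn _ _ (by decide)⟩, x 4, (h1 4).symm,
    (h2 4).symm, (h3 4).symm, hn _ _ (by decide), hn _ _ (by decide), hn _ _ (by decide),
    hn _ _ (by decide)⟩

/-- equality of two maps, as a truth value -/
def eqB (a b : F5) : Bool := a 0 == b 0 && (a 1 == b 1 && (a 2 == b 2 && (a 3 == b 3 && a 4 == b 4)))

theorem eqB_iff (a b : F5) : eqB a b = true ↔ a = b := by
  simp only [eqB, Bool.and_eq_true, beq_iff_eq]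
  constructor
  · rintro ⟨h0, h1, h2, h3, h4⟩
    funext i
    fin_cases i <;> assumption
  · rintro rfl
    simp

/-- one step of the strip: for all injective `t` with the listed constraints, `t` is in `T` -/
def checkStep (b k fb1 fg1 fb2 fg2 : F5) (S T : List F5) : Bool :=
  S.all fun s =>
  allF fun t0 => (t0 == 0 || (t0 == b 0 || t0 == k (s 0))) ||
  allF fun t1 => (t1 == 1 || (t1 == b 1 || (t1 == k (s 1) || t1 == t0))) ||
  allF fun t2 => (t2 == 2 || (t2 == b 2 || (t2 == k (s 2) || (t2 == t0 || t2 == t1)))) ||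
  allF fun t3 => (t3 == 3 || (t3 == b 3 || (t3 == k (s 3) || (t3 == t0 || (t3 == t1 || t3 == t2))))) ||
  allF fun t4 => (t4 == 4 || (t4 == b 4 || (t4 == k (s 4) ||
    (t4 == t0 || (t4 == t1 || (t4 == t2 || t4 == t3)))))) ||
  ((T.any fun t' => eqB t' ![t0, t1, t2, t3, t4]) ||
   (! (free (fb1 ∘ s) (fg1 ∘ ![t0, t1, t2, t3, t4])) ||
    ! (free (fb2 ∘ s) (fg2 ∘ ![t0, t1, t2, t3, t4]))))

theorem eq_vec (t : F5) : t = ![t 0, t 1, t 2, t 3, t 4] := by
  funext i
  fin_cases i <;> rfl

theorem step_of_check {b k fb1 fg1 fb2 fg2 : F5} {S T : List F5}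
    (h : checkStep b k fb1 fg1 fb2 fg2 S T = true) {s t x y : F5} (hs : s ∈ S)
    (ht : Function.Injective t) (h1 : Disc id t) (h2 : Disc b t) (h3 : Disc (k ∘ s) t)
    (hx : Function.Injective x) (hx1 : Disc id x) (hx2 : Disc (fb1 ∘ s) x)
    (hx3 : Disc (fg1 ∘ t) x)
    (hy : Function.Injective y) (hy1 : Disc id y) (hy2 : Disc (fb2 ∘ s) y)
    (hy3 : Disc (fg2 ∘ t) y) : t ∈ T := by
  have hn : ∀ i j : Fin 5, i ≠ j → (t i == t j) = false := fun i j hij =>
    beq_eq_false_iff_ne.mpr fun h => hij (ht h)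
  have e1 : ∀ i : Fin 5, (t i == i) = false := fun i => beq_eq_false_iff_ne.mpr (h1 i).symm
  have e2 : ∀ i : Fin 5, (t i == b i) = false := fun i => beq_eq_false_iff_ne.mpr (h2 i).symm
  have e3 : ∀ i : Fin 5, (t i == k (s i)) = false := fun i =>
    beq_eq_false_iff_ne.mpr (h3 i).symm
  have f1 := free_of hx hx1 hx2 hx3
  have f2 := free_of hy hy1 hy2 hy3
  rw [checkStep, List.all_eq_true] at h
  have h0 := h s hs
  rw [allF_iff] at h0
  have h0 := h0 (t 0)
  rw [e1 0, e2 0, e3 0, Bool.or_self, Bool.or_self, Bool.false_or, allF_iff] at h0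
  have h0 := h0 (t 1)
  rw [e1 1, e2 1, e3 1, hn 1 0 (by decide), Bool.or_self, Bool.or_self, Bool.or_self,
    Bool.false_or, allF_iff] at h0
  have h0 := h0 (t 2)
  rw [e1 2, e2 2, e3 2, hn 2 0 (by decide), hn 2 1 (by decide), Bool.or_self, Bool.or_self,
    Bool.or_self, Bool.or_self, Bool.false_or, allF_iff] at h0
  have h0 := h0 (t 3)
  rw [e1 3, e2 3, e3 3, hn 3 0 (by decide), hn 3 1 (by decide), hn 3 2 (by decide), Bool.or_self,
    Bool.or_self, Bool.or_self, Bool.or_self, Bool.or_self, Bool.false_or, allF_iff] at h0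
  have h0 := h0 (t 4)
  rw [e1 4, e2 4, e3 4, hn 4 0 (by decide), hn 4 1 (by decide), hn 4 2 (by decide),
    hn 4 3 (by decide), Bool.or_self,
    Bool.or_self, Bool.or_self, Bool.or_self, Bool.or_self, Bool.or_self, Bool.false_or,
    ← eq_vec t, f1, f2, Bool.not_true, Bool.or_self, Bool.or_false, List.any_eq_true] at h0
  obtain ⟨t', ht', h'⟩ := h0
  rw [eqB_iff] at h'
  exact h' ▸ ht'

/-- cover from the second pole to position 0 -/
def b0 : F5 := ![1, 0, 3, 4, 2]

/-- cover from the second pole to position 1 -/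
def b1 : F5 := ![1, 0, 4, 2, 3]

/-- cover from position 0 to 1 -/
def k1 : F5 := ![3, 4, 1, 2, 0]

/-- first face, from the left position -/
def p1 : F5 := ![3, 4, 2, 0, 1]

/-- first face, from the right position -/
def q1 : F5 := ![3, 4, 1, 0, 2]

/-- second face, from the left position -/
def r1 : F5 := ![4, 3, 0, 2, 1]

/-- second face, from the right position -/
def s1 : F5 := ![3, 2, 1, 4, 0]

/-- cover from the second pole to position 2 -/
def b2 : F5 := ![2, 3, 0, 4, 1]

/-- cover from position 1 to 2 -/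
def k2 : F5 := ![0, 3, 2, 4, 1]

/-- first face, from the left position -/
def p2 : F5 := ![3, 2, 0, 4, 1]

/-- first face, from the right position -/
def q2 : F5 := ![4, 2, 3, 1, 0]

/-- second face, from the left position -/
def r2 : F5 := ![1, 2, 4, 0, 3]

/-- second face, from the right position -/
def s2 : F5 := ![0, 3, 1, 4, 2]

/-- cover from the second pole to position 3 -/
def b3 : F5 := ![4, 2, 3, 1, 0]

/-- cover from position 2 to 3 -/
def k3 : F5 := ![3, 2, 0, 1, 4]

/-- first face, from the left position -/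
def p3 : F5 := ![0, 4, 1, 3, 2]

/-- first face, from the right position -/
def q3 : F5 := ![0, 2, 3, 4, 1]

/-- second face, from the left position -/
def r3 : F5 := ![1, 3, 0, 4, 2]

/-- second face, from the right position -/
def s3 : F5 := ![1, 3, 2, 4, 0]

/-- cover from the second pole to position 4 -/
def b4 : F5 := ![1, 0, 4, 2, 3]

/-- cover from position 3 to 4 -/
def k4 : F5 := ![3, 0, 4, 2, 1]

/-- first face, from the left position -/
def p4 : F5 := ![1, 2, 3, 0, 4]

/-- first face, from the right position -/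
def q4 : F5 := ![0, 3, 4, 2, 1]

/-- second face, from the left position -/
def r4 : F5 := ![1, 2, 3, 4, 0]

/-- second face, from the right position -/
def s4 : F5 := ![4, 1, 0, 2, 3]

/-- cover from the second pole to position 5 -/
def b5 : F5 := ![4, 2, 3, 1, 0]

/-- cover from position 4 to 5 -/
def k5 : F5 := ![2, 0, 3, 1, 4]

/-- first face, from the left position -/
def p5 : F5 := ![4, 0, 2, 1, 3]

/-- first face, from the right position -/
def q5 : F5 := ![3, 1, 2, 4, 0]

/-- second face, from the left position -/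
def r5 : F5 := ![3, 0, 4, 2, 1]

/-- second face, from the right position -/
def s5 : F5 := ![3, 1, 4, 2, 0]

/-- cover from the second pole to position 6 -/
def b6 : F5 := ![3, 0, 4, 2, 1]

/-- cover from position 5 to 6 -/
def k6 : F5 := ![4, 3, 2, 1, 0]

/-- first face, from the left position -/
def p6 : F5 := ![3, 1, 4, 0, 2]

/-- first face, from the right position -/
def q6 : F5 := ![0, 3, 4, 2, 1]

/-- second face, from the left position -/
def r6 : F5 := ![4, 0, 3, 2, 1]

/-- second face, from the right position -/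
def s6 : F5 := ![0, 4, 3, 1, 2]

/-- cover from the second pole to position 7 -/
def b7 : F5 := ![3, 0, 1, 4, 2]

/-- cover from position 6 to 7 -/
def k7 : F5 := ![0, 1, 2, 3, 4]

/-- first face, from the left position -/
def p7 : F5 := ![1, 2, 4, 0, 3]

/-- first face, from the right position -/
def q7 : F5 := ![2, 1, 0, 4, 3]

/-- second face, from the left position -/
def r7 : F5 := ![1, 4, 2, 0, 3]

/-- second face, from the right position -/
def s7 : F5 := ![4, 0, 1, 2, 3]

/-- feasible maps at position 0 -/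
def S0 : List F5 := [![2, 3, 4, 0, 1], ![2, 3, 4, 1, 0], ![2, 4, 0, 1, 3], ![2, 4, 1, 0, 3], ![3, 2, 4, 0, 1], ![3, 2, 4, 1, 0], ![3, 4, 0, 2, 1], ![3, 4, 1, 2, 0], ![4, 2, 0, 1, 3], ![4, 2, 1, 0, 3], ![4, 3, 0, 2, 1], ![4, 3, 1, 2, 0]]

/-- feasible maps at position 1 -/
def S1 : List F5 := [![2, 3, 0, 4, 1], ![2, 3, 1, 4, 0], ![2, 4, 3, 0, 1], ![3, 2, 0, 4, 1], ![3, 2, 1, 4, 0], ![3, 4, 1, 0, 2], ![4, 2, 3, 0, 1], ![4, 2, 3, 1, 0], ![4, 3, 1, 0, 2]]

/-- feasible maps at position 2 -/
def S2 : List F5 := [![1, 0, 4, 2, 3], ![1, 4, 3, 2, 0], ![3, 2, 4, 1, 0], ![3, 4, 1, 0, 2], ![3, 4, 1, 2, 0], ![4, 0, 1, 2, 3], ![4, 0, 3, 1, 2]]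

/-- feasible maps at position 3 -/
def S3 : List F5 := [![1, 4, 0, 2, 3], ![2, 0, 1, 4, 3], ![2, 3, 0, 4, 1], ![3, 0, 1, 4, 2], ![3, 0, 4, 2, 1]]

/-- feasible maps at position 4 -/
def S4 : List F5 := [![3, 2, 1, 4, 0], ![3, 4, 1, 0, 2], ![4, 2, 3, 0, 1]]

/-- feasible maps at position 5 -/
def S5 : List F5 := [![2, 3, 4, 0, 1], ![3, 0, 1, 4, 2]]

/-- feasible maps at position 6 -/
def S6 : List F5 := [![4, 3, 1, 0, 2]]

/-- feasible maps at position 7 -/
def S7 : List F5 := []

/-- the start of the strip -/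
def checkStart (b : F5) (T : List F5) : Bool :=
  allF fun t0 => (t0 == 0 || t0 == b 0) ||
  allF fun t1 => (t1 == 1 || (t1 == b 1 || t1 == t0)) ||
  allF fun t2 => (t2 == 2 || (t2 == b 2 || (t2 == t0 || t2 == t1))) ||
  allF fun t3 => (t3 == 3 || (t3 == b 3 || (t3 == t0 || (t3 == t1 || t3 == t2)))) ||
  allF fun t4 => (t4 == 4 || (t4 == b 4 || (t4 == t0 || (t4 == t1 || (t4 == t2 || t4 == t3))))) ||
  (T.any fun t' => eqB t' ![t0, t1, t2, t3, t4])

theorem start_of_check {b : F5} {T : List F5} (h0 : checkStart b T = true) {t : F5}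
    (ht : Function.Injective t) (h1 : Disc id t) (h2 : Disc b t) : t ∈ T := by
  have hn : ∀ i j : Fin 5, i ≠ j → (t i == t j) = false := fun i j hij =>
    beq_eq_false_iff_ne.mpr fun h => hij (ht h)
  have e1 : ∀ i : Fin 5, (t i == i) = false := fun i => beq_eq_false_iff_ne.mpr (h1 i).symm
  have e2 : ∀ i : Fin 5, (t i == b i) = false := fun i => beq_eq_false_iff_ne.mpr (h2 i).symm
  rw [checkStart, allF_iff] at h0
  have h0 := h0 (t 0)
  rw [e1 0, e2 0, Bool.or_self, Bool.false_or, allF_iff] at h0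
  have h0 := h0 (t 1)
  rw [e1 1, e2 1, hn 1 0 (by decide), Bool.or_self, Bool.or_self,
    Bool.false_or, allF_iff] at h0
  have h0 := h0 (t 2)
  rw [e1 2, e2 2, hn 2 0 (by decide), hn 2 1 (by decide), Bool.or_self, Bool.or_self,
    Bool.or_self, Bool.false_or, allF_iff] at h0
  have h0 := h0 (t 3)
  rw [e1 3, e2 3, hn 3 0 (by decide), hn 3 1 (by decide), hn 3 2 (by decide), Bool.or_self,
    Bool.or_self, Bool.or_self, Bool.or_self, Bool.false_or, allF_iff] at h0
  have h0 := h0 (t 4)
  rw [e1 4, e2 4, hn 4 0 (by decide), hn 4 1 (by decide), hn 4 2 (by decide),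
    hn 4 3 (by decide), Bool.or_self,
    Bool.or_self, Bool.or_self, Bool.or_self, Bool.or_self, Bool.false_or,
    ← eq_vec t, List.any_eq_true] at h0
  obtain ⟨t', ht', h'⟩ := h0
  rw [eqB_iff] at h'
  exact h' ▸ ht'

theorem start_check : checkStart b0 S0 = true := by decide +kernel

theorem check1 : checkStep b1 k1 p1 q1 r1 s1 S0 S1 = true := by decide +kernel

theorem check2 : checkStep b2 k2 p2 q2 r2 s2 S1 S2 = true := by decide +kernel

theorem check3 : checkStep b3 k3 p3 q3 r3 s3 S2 S3 = true := by decide +kernel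

theorem check4 : checkStep b4 k4 p4 q4 r4 s4 S3 S4 = true := by decide +kernel

theorem check5 : checkStep b5 k5 p5 q5 r5 s5 S4 S5 = true := by decide +kernel

theorem check6 : checkStep b6 k6 p6 q6 r6 s6 S5 S6 = true := by decide +kernel

theorem check7 : checkStep b7 k7 p7 q7 r7 s7 S6 S7 = true := by decide +kernel

/-- cB by position -/
def cB (i : ℕ) : F5 := match i with
  | 0 => b0
  | 1 => b1
  | 2 => b2
  | 3 => b3
  | 4 => b4
  | 5 => b5
  | 6 => b6
  | 7 => b7
  | _ => id

/-- cK by position -/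
def cK (i : ℕ) : F5 := match i with
  | 0 => id
  | 1 => k1
  | 2 => k2
  | 3 => k3
  | 4 => k4
  | 5 => k5
  | 6 => k6
  | 7 => k7
  | _ => id

/-- cP by position -/
def cP (i : ℕ) : F5 := match i with
  | 0 => id
  | 1 => p1
  | 2 => p2
  | 3 => p3
  | 4 => p4
  | 5 => p5
  | 6 => p6
  | 7 => p7
  | _ => id

/-- cQ by position -/
def cQ (i : ℕ) : F5 := match i with
  | 0 => id
  | 1 => q1
  | 2 => q2
  | 3 => q3
  | 4 => q4
  | 5 => q5
  | 6 => q6
  | 7 => q7
  | _ => id

/-- cR by position -/
def cR (i : ℕ) : F5 := match i with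
  | 0 => id
  | 1 => r1
  | 2 => r2
  | 3 => r3
  | 4 => r4
  | 5 => r5
  | 6 => r6
  | 7 => r7
  | _ => id

/-- cS by position -/
def cS (i : ℕ) : F5 := match i with
  | 0 => id
  | 1 => s1
  | 2 => s2
  | 3 => s3
  | 4 => s4
  | 5 => s5
  | 6 => s6
  | 7 => s7
  | _ => id

theorem inj_of_check (f : F5) (h : (allF fun i => allF fun j => (i == j) || ! (f i == f j)) = true) :
    Function.Injective f := by
  intro i j hij
  rw [allF_iff] at h
  have h := h i
  rw [allF_iff] at h
  have h := h j
  rw [hij] at h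
  simpa using h

theorem cB_inj (i : ℕ) : Function.Injective (cB i) := by
  unfold cB
  split
  · exact inj_of_check _ (by decide +kernel)
  · exact inj_of_check _ (by decide +kernel)
  · exact inj_of_check _ (by decide +kernel)
  · exact inj_of_check _ (by decide +kernel)
  · exact inj_of_check _ (by decide +kernel)
  · exact inj_of_check _ (by decide +kernel)
  · exact inj_of_check _ (by decide +kernel)
  · exact inj_of_check _ (by decide +kernel)
  · exact Function.injective_id

theorem cK_inj (i : ℕ) : Function.Injective (cK i) := by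
  unfold cK
  split
  · exact Function.injective_id
  · exact inj_of_check _ (by decide +kernel)
  · exact inj_of_check _ (by decide +kernel)
  · exact inj_of_check _ (by decide +kernel)
  · exact inj_of_check _ (by decide +kernel)
  · exact inj_of_check _ (by decide +kernel)
  · exact inj_of_check _ (by decide +kernel)
  · exact inj_of_check _ (by decide +kernel)
  · exact Function.injective_id

theorem cP_inj (i : ℕ) : Function.Injective (cP i) := by
  unfold cP
  split
  · exact Function.injective_id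
  · exact inj_of_check _ (by decide +kernel)
  · exact inj_of_check _ (by decide +kernel)
  · exact inj_of_check _ (by decide +kernel)
  · exact inj_of_check _ (by decide +kernel)
  · exact inj_of_check _ (by decide +kernel)
  · exact inj_of_check _ (by decide +kernel)
  · exact inj_of_check _ (by decide +kernel)
  · exact Function.injective_id

theorem cQ_inj (i : ℕ) : Function.Injective (cQ i) := by
  unfold cQ
  split
  · exact Function.injective_id
  · exact inj_of_check _ (by decide +kernel)
  · exact inj_of_check _ (by decide +kernel)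
  · exact inj_of_check _ (by decide +kernel)
  · exact inj_of_check _ (by decide +kernel)
  · exact inj_of_check _ (by decide +kernel)
  · exact inj_of_check _ (by decide +kernel)
  · exact inj_of_check _ (by decide +kernel)
  · exact Function.injective_id

theorem cR_inj (i : ℕ) : Function.Injective (cR i) := by
  unfold cR
  split
  · exact Function.injective_id
  · exact inj_of_check _ (by decide +kernel)
  · exact inj_of_check _ (by decide +kernel)
  · exact inj_of_check _ (by decide +kernel)
  · exact inj_of_check _ (by decide +kernel)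
  · exact inj_of_check _ (by decide +kernel)
  · exact inj_of_check _ (by decide +kernel)
  · exact inj_of_check _ (by decide +kernel)
  · exact Function.injective_id

theorem cS_inj (i : ℕ) : Function.Injective (cS i) := by
  unfold cS
  split
  · exact Function.injective_id
  · exact inj_of_check _ (by decide +kernel)
  · exact inj_of_check _ (by decide +kernel)
  · exact inj_of_check _ (by decide +kernel)
  · exact inj_of_check _ (by decide +kernel)
  · exact inj_of_check _ (by decide +kernel)
  · exact inj_of_check _ (by decide +kernel)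
  · exact inj_of_check _ (by decide +kernel)
  · exact Function.injective_id

/-- The strip has no extension: eight positions `w 0, ..., w 7`, both poles carrying the
identity, and the two face vertices `x i`, `y i` between the positions `i` and `i + 1`. -/
theorem no_extension (w x y : ℕ → F5)
    (hw : ∀ i < 8, Function.Injective (w i)) (hx : ∀ i < 7, Function.Injective (x i))
    (hy : ∀ i < 7, Function.Injective (y i))
    (h1 : ∀ i < 8, Disc id (w i)) (h2 : ∀ i < 8, Disc (cB i) (w i))
    (h3 : ∀ i < 7, Disc (cK (i + 1) ∘ w i) (w (i + 1)))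
    (hx1 : ∀ i < 7, Disc id (x i)) (hx2 : ∀ i < 7, Disc (cP (i + 1) ∘ w i) (x i))
    (hx3 : ∀ i < 7, Disc (cQ (i + 1) ∘ w (i + 1)) (x i))
    (hy1 : ∀ i < 7, Disc id (y i)) (hy2 : ∀ i < 7, Disc (cR (i + 1) ∘ w i) (y i))
    (hy3 : ∀ i < 7, Disc (cS (i + 1) ∘ w (i + 1)) (y i)) : False := by
  have m0 : w 0 ∈ S0 := start_of_check start_check (hw 0 (by decide)) (h1 0 (by decide))
    (h2 0 (by decide))
  have m1 : w 1 ∈ S1 := step_of_check check1 m0 (hw 1 (by decide)) (h1 1 (by decide))
    (h2 1 (by decide)) (h3 0 (by decide)) (hx 0 (by decide)) (hx1 0 (by decide))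
    (hx2 0 (by decide)) (hx3 0 (by decide)) (hy 0 (by decide)) (hy1 0 (by decide))
    (hy2 0 (by decide)) (hy3 0 (by decide))
  have m2 : w 2 ∈ S2 := step_of_check check2 m1 (hw 2 (by decide)) (h1 2 (by decide))
    (h2 2 (by decide)) (h3 1 (by decide)) (hx 1 (by decide)) (hx1 1 (by decide))
    (hx2 1 (by decide)) (hx3 1 (by decide)) (hy 1 (by decide)) (hy1 1 (by decide))
    (hy2 1 (by decide)) (hy3 1 (by decide))
  have m3 : w 3 ∈ S3 := step_of_check check3 m2 (hw 3 (by decide)) (h1 3 (by decide))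
    (h2 3 (by decide)) (h3 2 (by decide)) (hx 2 (by decide)) (hx1 2 (by decide))
    (hx2 2 (by decide)) (hx3 2 (by decide)) (hy 2 (by decide)) (hy1 2 (by decide))
    (hy2 2 (by decide)) (hy3 2 (by decide))
  have m4 : w 4 ∈ S4 := step_of_check check4 m3 (hw 4 (by decide)) (h1 4 (by decide))
    (h2 4 (by decide)) (h3 3 (by decide)) (hx 3 (by decide)) (hx1 3 (by decide))
    (hx2 3 (by decide)) (hx3 3 (by decide)) (hy 3 (by decide)) (hy1 3 (by decide))
    (hy2 3 (by decide)) (hy3 3 (by decide))
  have m5 : w 5 ∈ S5 := step_of_check check5 m4 (hw 5 (by decide)) (h1 5 (by decide))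
    (h2 5 (by decide)) (h3 4 (by decide)) (hx 4 (by decide)) (hx1 4 (by decide))
    (hx2 4 (by decide)) (hx3 4 (by decide)) (hy 4 (by decide)) (hy1 4 (by decide))
    (hy2 4 (by decide)) (hy3 4 (by decide))
  have m6 : w 6 ∈ S6 := step_of_check check6 m5 (hw 6 (by decide)) (h1 6 (by decide))
    (h2 6 (by decide)) (h3 5 (by decide)) (hx 5 (by decide)) (hx1 5 (by decide))
    (hx2 5 (by decide)) (hx3 5 (by decide)) (hy 5 (by decide)) (hy1 5 (by decide))
    (hy2 5 (by decide)) (hy3 5 (by decide))
  have m7 : w 7 ∈ S7 := step_of_check check7 m6 (hw 7 (by decide)) (h1 7 (by decide))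
    (h2 7 (by decide)) (h3 6 (by decide)) (hx 6 (by decide)) (hx1 6 (by decide))
    (hx2 6 (by decide)) (hx3 6 (by decide)) (hy 6 (by decide)) (hy1 6 (by decide))
    (hy2 6 (by decide)) (hy3 6 (by decide))
  simp [S7] at m7

end Pool.Agent.Work.MP_fe1b94_co.H65
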