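import Mathlib
import Pool.Agent.Work.MP_fe1b94_co.Defs65

set_option autoImplicit false

namespace Pool.Agent.Work.MP_fe1b94_co.H65

/-- vertices of the strip graph: two poles, a path of `n + 1` vertices, and `n` face vertices on
each side of the path -/
inductive Vtx (n : ℕ) : Type
  | pole (s : Bool) : Vtx n
  | w (m : Fin (n + 1)) : Vtx n
  | x (s : Bool) (m : Fin n) : Vtx n

instance (n : ℕ) : Finite (Vtx n) := by
  let f : Vtx n → Bool ⊕ (Fin (n + 1) ⊕ (Bool × Fin n))
    | .pole s => Sum.inl s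
    | .w m => Sum.inr (Sum.inl m)
    | .x s m => Sum.inr (Sum.inr (s, m))
  apply Finite.of_injective f
  intro a b h
  cases a <;> cases b <;> simp_all [f]

/-- the oriented edges -/
def E {n : ℕ} : Vtx n → Vtx n → Prop
  | .pole _, .w _ => True
  | .pole s, .x s' _ => s = s'
  | .w m, .w m' => m'.val = m.val + 1
  | .w m, .x _ m' => m.val = m'.val ∨ m.val = m'.val + 1
  | _, _ => False

theorem E_asymm {n : ℕ} {a b : Vtx n} (h : E a b) (h' : E b a) : False := by
  cases a <;> cases b <;> simp [E] at h h'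
  omega

/-- the strip graph -/
def stripGraph (n : ℕ) : SimpleGraph (Vtx n) where
  Adj a b := E a b ∨ E b a
  symm := ⟨fun _ _ h => h.symm⟩
  loopless := ⟨fun _ h => h.elim (fun h => E_asymm h h) (fun h => E_asymm h h)⟩

/-- sign of a pole -/
def sg : Bool → ℤ
  | false => -1
  | true => 1

/-- the drawing -/
noncomputable def draw {n : ℕ} : Vtx n → ℝ × ℝ
  | .pole s => (0, (sg s : ℝ))
  | .w m => ((m.val : ℝ), 0)
  | .x s m => ((2 * (m.val : ℝ) + 1) / 4, (sg s : ℝ) / 2)

/-- twice the projective coordinate seen from the poles -/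
noncomputable def tt (q : ℝ × ℝ) : ℝ := 2 * q.1 / (1 - |q.2|)

/-- label of a point of the plane -/
noncomputable def keyq (q : ℝ × ℝ) : ℤ × ℤ × ℤ :=
  open Classical in
  if q.2 = 0 then (0, ⌊q.1⌋, 0) else ((if 0 < q.2 then 1 else -1), ⌊tt q⌋, ⌈tt q⌉)

/-- label of an edge -/
def key {n : ℕ} : Vtx n → Vtx n → ℤ × ℤ × ℤ
  | .pole s, .w m => (sg s, 2 * m.val, 2 * m.val)
  | .pole s, .x _ m => (sg s, 2 * m.val + 1, 2 * m.val + 1)
  | .w m, .w _ => (0, m.val, 0)
  | .w m, .x s m' => if m.val = m'.val then (sg s, 2 * m'.val, 2 * m'.val + 1)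
      else (sg s, 2 * m'.val + 1, 2 * m'.val + 2)
  | _, _ => (0, 0, 0)

theorem E_cases {n : ℕ} {a b : Vtx n} (h : E a b) :
    (∃ s m, a = .pole s ∧ b = .w m ∧ key a b = (sg s, 2 * (m.val : ℤ), 2 * (m.val : ℤ))) ∨
    (∃ s m, a = .pole s ∧ b = .x s m ∧
      key a b = (sg s, 2 * (m.val : ℤ) + 1, 2 * (m.val : ℤ) + 1)) ∨
    (∃ m m' : Fin (n + 1), a = .w m ∧ b = .w m' ∧ key a b = (0, (m.val : ℤ), 0) ∧
      m'.val = m.val + 1) ∨
    (∃ (s : Bool) (m : Fin (n + 1)) (m' : Fin n), a = .w m ∧ b = .x s m' ∧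
      key a b = (sg s, 2 * (m'.val : ℤ), 2 * (m'.val : ℤ) + 1) ∧ m.val = m'.val) ∨
    (∃ (s : Bool) (m : Fin (n + 1)) (m' : Fin n), a = .w m ∧ b = .x s m' ∧
      key a b = (sg s, 2 * (m'.val : ℤ) + 1, 2 * (m'.val : ℤ) + 2) ∧ m.val = m'.val + 1) := by
  cases a <;> cases b <;> simp_all [E, key]
  omega

theorem sg_ne (s : Bool) : sg s ≠ 0 := by cases s <;> simp [sg]

theorem sg_inj {s s' : Bool} (h : sg s = sg s') : s = s' := by
  cases s <;> cases s' <;> simp_all [sg]

theorem key_inj {n : ℕ} {a b c d : Vtx n} (h : E a b) (h' : E c d) (hk : key a b = key c d) :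
    a = c ∧ b = d := by
  rcases E_cases h with ⟨s, m, rfl, rfl, k⟩ | ⟨s, m, rfl, rfl, k⟩ | ⟨m, m', rfl, rfl, k, hm⟩ |
      ⟨s, m, m', rfl, rfl, k, hm⟩ | ⟨s, m, m', rfl, rfl, k, hm⟩ <;>
    rcases E_cases h' with ⟨s₁, m₁, rfl, rfl, k₁⟩ | ⟨s₁, m₁, rfl, rfl, k₁⟩ |
      ⟨m₁, m₁', rfl, rfl, k₁, hm₁⟩ |
      ⟨s₁, m₁, m₁', rfl, rfl, k₁, hm₁⟩ | ⟨s₁, m₁, m₁', rfl, rfl, k₁, hm₁⟩ <;>
    rw [k, k₁, Prod.mk.injEq, Prod.mk.injEq] at hk <;>
    obtain ⟨h1, h2, h3⟩ := hk <;>
    first
    | (exfalso; omega)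
    | (exfalso; exact sg_ne _ h1)
    | (exfalso; exact sg_ne _ h1.symm)
    | (obtain rfl := sg_inj h1
       obtain rfl : m = m₁ := Fin.ext (by omega)
       exact ⟨rfl, rfl⟩)
    | (obtain rfl := sg_inj h1
       obtain rfl : m = m₁ := Fin.ext (by omega)
       obtain rfl : m' = m₁' := Fin.ext (by omega)
       exact ⟨rfl, rfl⟩)
    | (obtain rfl : m = m₁ := Fin.ext (by omega)
       obtain rfl : m' = m₁' := Fin.ext (by omega)
       exact ⟨rfl, rfl⟩)

theorem abs_of_sg {q : ℝ × ℝ} {σ : Bool} {α : ℝ} (hα : 0 < α) (hy : q.2 = sg σ * α) :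
    |q.2| = α := by
  rw [hy, abs_mul, abs_of_pos hα]
  cases σ <;> simp [sg]

theorem keyq_of {q : ℝ × ℝ} {σ : Bool} {α : ℝ} {l u : ℤ} (hα : 0 < α) (hy : q.2 = sg σ * α)
    (hl : ⌊tt q⌋ = l) (hu : ⌈tt q⌉ = u) : keyq q = (sg σ, l, u) := by
  have h0 : q.2 ≠ 0 := by
    rw [hy]
    exact mul_ne_zero (by exact_mod_cast sg_ne σ) hα.ne'
  rw [keyq, if_neg h0, hl, hu]
  cases σ
  · have : ¬ 0 < q.2 := by rw [hy]; simp [sg]; linarith
    rw [if_neg this]; rfl
  · have : 0 < q.2 := by rw [hy]; simp [sg]; linarith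
    rw [if_pos this]; rfl

/-- facts about the points of an open edge -/
structure OnEdge (q : ℝ × ℝ) (k : ℤ × ℤ × ℤ) : Prop where
  lt1 : |q.2| < 1
  zero : q.2 = 0 → ∃ n : ℤ, (n : ℝ) < q.1 ∧ q.1 < n + 1
  half : |q.2| = 1 / 2 → ∀ m : ℤ, tt q ≠ 2 * m + 1
  key : keyq q = k

theorem onEdge_of_sg {q : ℝ × ℝ} {σ : Bool} {α : ℝ} {l u : ℤ} (hα : 0 < α) (h1 : α < 1)
    (hy : q.2 = sg σ * α)
    (hl : ⌊tt q⌋ = l) (hu : ⌈tt q⌉ = u) (hh : α = 1 / 2 → ∀ m : ℤ, tt q ≠ 2 * m + 1) :
    OnEdge q (sg σ, l, u) := by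
  refine ⟨by rwa [abs_of_sg hα hy], fun h0 => ?_, ?_, keyq_of hα hy hl hu⟩
  · exfalso
    rw [hy] at h0
    exact mul_ne_zero (by exact_mod_cast sg_ne σ) hα.ne' h0
  · rwa [abs_of_sg hα hy]

theorem onEdge_of {n : ℕ} {a b : Vtx n} (h : E a b) {q : ℝ × ℝ}
    (hq : q ∈ openSegment ℝ (draw a) (draw b)) : OnEdge q (key a b) := by
  obtain ⟨α, β, hα, hβ, hs, rfl⟩ := hq
  rcases E_cases h with ⟨s, m, rfl, rfl, k⟩ | ⟨s, m, rfl, rfl, k⟩ | ⟨m, m', rfl, rfl, k, hm⟩ |
      ⟨s, m, m', rfl, rfl, k, hm⟩ | ⟨s, m, m', rfl, rfl, k, hm⟩ <;> rw [k]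
  · -- pole to path
    have hy : (α • draw (Vtx.pole s : Vtx n) + β • draw (Vtx.w m : Vtx n)).2 = sg s * α := by
      simp [draw, mul_comm]
    have ht : tt (α • draw (Vtx.pole s : Vtx n) + β • draw (Vtx.w m : Vtx n)) = ((2 * (m.val : ℤ) : ℤ) : ℝ) := by
      rw [tt, abs_of_sg hα hy]
      have : 1 - α = β := by linarith
      rw [this]
      simp only [draw, Prod.smul_mk, smul_eq_mul, Prod.mk_add_mk, mul_zero, zero_add, add_zero]
      push_cast
      field_simp
    apply onEdge_of_sg hα (by linarith) hy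
    · rw [ht, Int.floor_intCast]
    · rw [ht, Int.ceil_intCast]
    · intro _ m'
      rw [ht]
      intro h'
      have : (2 * (m.val : ℤ) : ℤ) = 2 * m' + 1 := by exact_mod_cast h'
      omega
  · -- pole to face vertex
    have hy : (α • draw (Vtx.pole s : Vtx n) + β • draw (Vtx.x s m : Vtx n)).2 =
        sg s * (α + β / 2) := by
      simp [draw]; ring
    have ht : tt (α • draw (Vtx.pole s : Vtx n) + β • draw (Vtx.x s m : Vtx n)) =
        ((2 * (m.val : ℤ) + 1 : ℤ) : ℝ) := by
      rw [tt, abs_of_sg (by positivity) hy]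
      have : 1 - (α + β / 2) = β / 2 := by linarith
      rw [this]
      simp only [draw, Prod.smul_mk, smul_eq_mul, Prod.mk_add_mk, mul_zero, zero_add]
      push_cast
      field_simp
      ring
    apply onEdge_of_sg (by positivity) (by linarith) hy
    · rw [ht, Int.floor_intCast]
    · rw [ht, Int.ceil_intCast]
    · intro h' m'
      exfalso
      linarith
  · -- path edge
    have hy : (α • draw (Vtx.w m : Vtx n) + β • draw (Vtx.w m' : Vtx n)).2 = 0 := by
      simp [draw]
    have hx : (α • draw (Vtx.w m : Vtx n) + β • draw (Vtx.w m' : Vtx n)).1 = m.val + β := by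
      simp only [draw, Prod.smul_mk, smul_eq_mul, Prod.mk_add_mk, hm]
      push_cast
      have : α = 1 - β := by linarith
      rw [this]
      ring
    refine ⟨by rw [hy]; simp, fun _ => ⟨m.val, ?_, ?_⟩, ?_, ?_⟩
    · rw [hx]; push_cast; linarith
    · rw [hx]; push_cast; linarith
    · rw [hy]; intro h; norm_num at h
    · rw [keyq, if_pos hy, hx]
      have : ⌊(m.val : ℝ) + β⌋ = (m.val : ℤ) := by
        rw [Int.floor_eq_iff]
        push_cast
        constructor <;> linarith
      rw [this]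
  · -- left neighbour on the path to face vertex
    have hy : (α • draw (Vtx.w m : Vtx n) + β • draw (Vtx.x s m' : Vtx n)).2 =
        sg s * (β / 2) := by
      simp [draw]; ring
    have hd : 0 < 1 - β / 2 := by linarith
    have hd2 : 2 - β ≠ 0 := by
      intro h'
      linarith
    have ht : tt (α • draw (Vtx.w m : Vtx n) + β • draw (Vtx.x s m' : Vtx n)) =
        2 * (m'.val : ℝ) + (β / 2) / (1 - β / 2) := by
      rw [tt, abs_of_sg (by positivity) hy]
      simp only [draw, Prod.smul_mk, smul_eq_mul, Prod.mk_add_mk, hm]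
      have : α = 1 - β := by linarith
      rw [this]
      field_simp
      ring
    have h1 : 0 < (β / 2) / (1 - β / 2) := by positivity
    have h2 : (β / 2) / (1 - β / 2) < 1 := by
      rw [div_lt_one hd]; linarith
    apply onEdge_of_sg (by positivity) (by linarith) hy
    · rw [ht, Int.floor_eq_iff]
      push_cast
      constructor <;> linarith
    · rw [ht, Int.ceil_eq_iff]
      push_cast
      constructor <;> linarith
    · intro h' _
      exfalso
      linarith
  · -- right neighbour on the path to face vertex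
    have hy : (α • draw (Vtx.w m : Vtx n) + β • draw (Vtx.x s m' : Vtx n)).2 =
        sg s * (β / 2) := by
      simp [draw]; ring
    have hd : 0 < 1 - β / 2 := by linarith
    have hd2 : 2 - β ≠ 0 := by
      intro h'
      linarith
    have ht : tt (α • draw (Vtx.w m : Vtx n) + β • draw (Vtx.x s m' : Vtx n)) =
        2 * (m'.val : ℝ) + 1 + α / (1 - β / 2) := by
      rw [tt, abs_of_sg (by positivity) hy]
      simp only [draw, Prod.smul_mk, smul_eq_mul, Prod.mk_add_mk, hm]
      have : α = 1 - β := by linarith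
      rw [this]
      push_cast
      field_simp
      ring
    have h1 : 0 < α / (1 - β / 2) := by positivity
    have h2 : α / (1 - β / 2) < 1 := by
      rw [div_lt_one hd]; linarith
    apply onEdge_of_sg (by positivity) (by linarith) hy
    · rw [ht, Int.floor_eq_iff]
      push_cast
      constructor <;> linarith
    · rw [ht, Int.ceil_eq_iff]
      push_cast
      constructor <;> linarith
    · intro h' _
      exfalso
      linarith

theorem draw_inj {n : ℕ} : Function.Injective (draw : Vtx n → ℝ × ℝ) := by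
  intro a b h
  cases a with
  | pole s =>
    cases b with
    | pole s' =>
      simp only [draw, Prod.mk.injEq] at h
      have : sg s = sg s' := by exact_mod_cast h.2
      rw [sg_inj this]
    | w m => 
      simp only [draw, Prod.mk.injEq] at h
      exact absurd (by exact_mod_cast h.2) (sg_ne s)
    | x s' m =>
      exfalso
      simp only [draw, Prod.mk.injEq] at h
      have := h.1
      have : (0 : ℝ) ≤ m.val := Nat.cast_nonneg _
      linarith
  | w m =>
    cases b with
    | pole s' =>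
      simp only [draw, Prod.mk.injEq] at h
      exact absurd (by exact_mod_cast h.2.symm) (sg_ne s')
    | w m' =>
      simp only [draw, Prod.mk.injEq] at h
      have : m.val = m'.val := by exact_mod_cast h.1
      rw [Fin.ext this]
    | x s' m' =>
      exfalso
      simp only [draw, Prod.mk.injEq] at h
      have h2 := h.2
      cases s' <;> norm_num [sg] at h2
  | x s m =>
    cases b with
    | pole s' =>
      exfalso
      simp only [draw, Prod.mk.injEq] at h
      have := h.1
      have : (0 : ℝ) ≤ m.val := Nat.cast_nonneg _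
      linarith
    | w m' =>
      exfalso
      simp only [draw, Prod.mk.injEq] at h
      have h2 := h.2
      cases s <;> norm_num [sg] at h2
    | x s' m' =>
      simp only [draw, Prod.mk.injEq] at h
      have h2 : sg s = sg s' := by
        have : (sg s : ℝ) = sg s' := by linarith [h.2]
        exact_mod_cast this
      have h1 : m.val = m'.val := by
        have : (m.val : ℝ) = m'.val := by linarith [h.1]
        exact_mod_cast this
      rw [sg_inj h2, Fin.ext h1]

theorem not_mem_of_onEdge {n : ℕ} (c : Vtx n) {k : ℤ × ℤ × ℤ} (h : OnEdge (draw c) k) : False := by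
  cases c with
  | pole s =>
    have := h.lt1
    cases s <;> simp [draw, sg] at this
  | w m =>
    obtain ⟨n', h1, h2⟩ := h.zero (by simp [draw])
    simp only [draw] at h1 h2
    have h1' : n' < (m.val : ℤ) := by exact_mod_cast h1
    have h2' : (m.val : ℤ) < n' + 1 := by exact_mod_cast h2
    omega
  | x s m =>
    have ha : |(draw (Vtx.x s m : Vtx n)).2| = 1 / 2 := by
      apply abs_of_sg (σ := s) (by norm_num)
      simp [draw]; ring
    apply h.half ha m.val
    rw [tt, ha]
    simp only [draw]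
    push_cast
    ring

theorem stripGraph_planar (n : ℕ) : IsPlanar (stripGraph n) := by
  refine ⟨draw, draw_inj, ?_, ?_⟩
  · rintro a b c (h | h) hc
    · exact not_mem_of_onEdge c (onEdge_of h hc)
    · rw [openSegment_symm] at hc
      exact not_mem_of_onEdge c (onEdge_of h hc)
  · have main : ∀ a b c d : Vtx n, E a b → E c d → s(a, b) ≠ s(c, d) →
        Disjoint (openSegment ℝ (draw a) (draw b)) (openSegment ℝ (draw c) (draw d)) := by
      intro a b c d h1 h2 hne
      rw [Set.disjoint_left]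
      intro q hq hq'
      have k1 := (onEdge_of h1 hq).key
      have k2 := (onEdge_of h2 hq').key
      obtain ⟨rfl, rfl⟩ := key_inj h1 h2 (k1.symm.trans k2)
      exact hne rfl
    rintro a b c d (h1 | h1) (h2 | h2) hne
    · exact main a b c d h1 h2 hne
    · rw [openSegment_symm ℝ (draw c)]
      exact main a b d c h1 h2 (by rwa [Sym2.eq_swap (a := d)])
    · rw [openSegment_symm ℝ (draw a)]
      exact main b a c d h1 h2 (by rwa [Sym2.eq_swap (a := b)])
    · rw [openSegment_symm ℝ (draw a), openSegment_symm ℝ (draw c)]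
      exact main b a d c h1 h2 (by rwa [Sym2.eq_swap (a := b), Sym2.eq_swap (a := d)])

end Pool.Agent.Work.MP_fe1b94_co.H65
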