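import Mathlib
import Pool.Agent.Work.MP_fe1b94_co.Defs65
import Pool.Agent.Work.MP_fe1b94_co.Strip
import Pool.Agent.Work.MP_fe1b94_co.Gadget

set_option autoImplicit false

namespace Pool.Agent.Work.MP_fe1b94_co.H65

theorem card_perm5 : Fintype.card (Equiv.Perm (Fin 5)) = 120 := by
  rw [Fintype.card_perm, Fintype.card_fin]; rfl

/-- enumeration of the permutations of five colours -/
noncomputable def rho (j : ℕ) : Equiv.Perm (Fin 5) :=
  if h : j < 120 then (Fintype.equivFinOfCardEq card_perm5).symm ⟨j, h⟩ else 1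

theorem rho_surj (g : Equiv.Perm (Fin 5)) : ∃ j < 120, rho j = g := by
  refine ⟨(Fintype.equivFinOfCardEq card_perm5 g).val, Fin.is_lt _, ?_⟩
  rw [rho, dif_pos (Fin.is_lt _)]
  simp

/-- the bijections of the cover along the oriented edges -/
noncomputable def bij {n : ℕ} : Vtx n → Vtx n → F5
  | .pole true, .w m => cB (m.val % 8) ∘ ((rho (m.val / 8))⁻¹ : Equiv.Perm (Fin 5))
  | .pole true, .x _ m => ((rho (m.val / 8))⁻¹ : Equiv.Perm (Fin 5))
  | .w _, .w m' => cK (m'.val % 8)
  | .w m, .x false m' => if m.val = m'.val then cP ((m'.val + 1) % 8) else cQ ((m'.val + 1) % 8)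
  | .w m, .x true m' => if m.val = m'.val then cR ((m'.val + 1) % 8) else cS ((m'.val + 1) % 8)
  | _, _ => id

theorem bij_inj {n : ℕ} (a b : Vtx n) : Function.Injective (bij a b) := by
  unfold bij
  split
  · exact (cB_inj _).comp (Equiv.injective _)
  · exact Equiv.injective _
  · exact cK_inj _
  · split
    · exact cP_inj _
    · exact cQ_inj _
  · split
    · exact cR_inj _
    · exact cS_inj _
  · exact Function.injective_id

/-- the cover of the strip graph -/
noncomputable def stripCover (n : ℕ) : Cover (stripGraph n) 5 where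
  M a b i j := (E a b ∧ bij a b i = j) ∨ (E b a ∧ bij b a j = i)
  symm a b i j h := h.symm
  uniq a b i j j' _ h h' := by
    rcases h with ⟨h1, h2⟩ | ⟨h1, h2⟩ <;> rcases h' with ⟨h3, h4⟩ | ⟨h3, h4⟩
    · rw [← h2, ← h4]
    · exact (E_asymm h1 h3).elim
    · exact (E_asymm h1 h3).elim
    · exact bij_inj _ _ (h2.trans h4.symm)

theorem stripCover_no_packing : ¬ (stripCover 959).HasPacking := by
  rintro ⟨φ, hcol, hdis⟩
  -- the permutation at each vertex
  set σ : Vtx 959 → F5 := fun a i => φ i a with hσ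
  have hσi : ∀ a, Function.Injective (σ a) := by
    intro a i j hij
    by_contra hne
    exact hdis a i j hne hij
  have hE : ∀ a b, E a b → Disc (bij a b ∘ σ a) (σ b) := by
    intro a b h i hi
    exact hcol i a b (Or.inl h) (Or.inl ⟨h, hi⟩)
  -- normalise at the first pole
  let τ : Equiv.Perm (Fin 5) := Equiv.ofBijective (σ (.pole false))
    (Finite.injective_iff_bijective.mp (hσi _))
  set σ' : Vtx 959 → F5 := fun a => σ a ∘ (τ⁻¹ : Equiv.Perm (Fin 5)) with hσ'
  have hσi' : ∀ a, Function.Injective (σ' a) := fun a => (hσi a).comp (Equiv.injective _)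
  have hE' : ∀ a b, E a b → Disc (bij a b ∘ σ' a) (σ' b) := by
    intro a b h i
    exact hE a b h _
  have h0 : σ' (.pole false) = id := by
    funext i
    show σ (.pole false) (τ⁻¹ i) = i
    exact τ.apply_symm_apply i
  -- the second pole
  let ρ : Equiv.Perm (Fin 5) := Equiv.ofBijective (σ' (.pole true))
    (Finite.injective_iff_bijective.mp (hσi' _))
  have hρ : σ' (.pole true) = ρ := rfl
  obtain ⟨j, hj, hrho⟩ := rho_surj ρ
  -- the positions of the copy `j`
  let W : ℕ → Vtx 959 := fun i => .w ⟨(8 * j + i) % 960, Nat.mod_lt _ (by norm_num)⟩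
  let X : Bool → ℕ → Vtx 959 := fun s i => .x s ⟨(8 * j + i) % 959, Nat.mod_lt _ (by norm_num)⟩
  have hinv : ((rho j)⁻¹ : Equiv.Perm (Fin 5)) ∘ σ' (.pole true) = id := by
    rw [hρ, hrho]
    funext i
    simp
  have e9 : ∀ i < 7, (8 * j + i) % 959 = 8 * j + i := fun i hi => Nat.mod_eq_of_lt (by omega)
  have e0 : ∀ i < 8, (8 * j + i) % 960 = 8 * j + i := fun i hi => Nat.mod_eq_of_lt (by omega)
  have hWE : ∀ s i, E (.pole s : Vtx 959) (W i) := fun s i => trivial
  have hXE : ∀ s i, E (.pole s : Vtx 959) (X s i) := fun s i => rfl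
  have hWW : ∀ i < 7, E (W i) (W (i + 1)) := by
    intro i hi
    show (8 * j + (i + 1)) % 960 = (8 * j + i) % 960 + 1
    rw [e0 _ (by omega), e0 _ (by omega)]
    omega
  have hWX : ∀ s, ∀ i < 7, E (W i) (X s i) := by
    intro s i hi
    left
    show (8 * j + i) % 960 = (8 * j + i) % 959
    rw [e0 _ (by omega), e9 _ hi]
  have hWX' : ∀ s, ∀ i < 7, E (W (i + 1)) (X s i) := by
    intro s i hi
    right
    show (8 * j + (i + 1)) % 960 = (8 * j + i) % 959 + 1
    rw [e0 _ (by omega), e9 _ hi]
    omega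
  apply no_extension (fun i => σ' (W i)) (fun i => σ' (X false i)) (fun i => σ' (X true i))
    (fun _ _ => hσi' _) (fun _ _ => hσi' _) (fun _ _ => hσi' _)
  · intro i _
    have h := hE' _ _ (hWE false i)
    rw [h0] at h
    exact h
  · intro i hi
    have h := hE' _ _ (hWE true i)
    have e : bij (.pole true) (W i) = cB i ∘ ((rho j)⁻¹ : Equiv.Perm (Fin 5)) := by
      show cB ((8 * j + i) % 960 % 8) ∘ ((rho ((8 * j + i) % 960 / 8))⁻¹ : Equiv.Perm (Fin 5)) = _
      rw [e0 i hi, show (8 * j + i) % 8 = i by omega, show (8 * j + i) / 8 = j by omega]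
    rw [e, Function.comp_assoc, hinv] at h
    exact h
  · intro i hi
    have h := hE' _ _ (hWW i hi)
    have e : bij (W i) (W (i + 1)) = cK (i + 1) := by
      show cK ((8 * j + (i + 1)) % 960 % 8) = _
      rw [e0 _ (by omega), show (8 * j + (i + 1)) % 8 = i + 1 by omega]
    rw [e] at h
    exact h
  · intro i _
    have h := hE' _ _ (hXE false i)
    rw [h0] at h
    exact h
  · intro i hi
    have h := hE' _ _ (hWX false i hi)
    have e : bij (W i) (X false i) = cP (i + 1) := by
      show (if (8 * j + i) % 960 = (8 * j + i) % 959 then cP (((8 * j + i) % 959 + 1) % 8)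
        else cQ (((8 * j + i) % 959 + 1) % 8)) = _
      rw [e0 _ (by omega), e9 _ hi, if_pos rfl, show (8 * j + i + 1) % 8 = i + 1 by omega]
    rw [e] at h
    exact h
  · intro i hi
    have h := hE' _ _ (hWX' false i hi)
    have e : bij (W (i + 1)) (X false i) = cQ (i + 1) := by
      show (if (8 * j + (i + 1)) % 960 = (8 * j + i) % 959 then cP (((8 * j + i) % 959 + 1) % 8)
        else cQ (((8 * j + i) % 959 + 1) % 8)) = _
      rw [e0 _ (by omega), e9 _ hi, if_neg (by omega), show (8 * j + i + 1) % 8 = i + 1 by omega]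
    rw [e] at h
    exact h
  · intro i hi
    have h := hE' _ _ (hXE true i)
    have e : bij (.pole true) (X true i) = ((rho j)⁻¹ : Equiv.Perm (Fin 5)) := by
      show (⇑((rho ((8 * j + i) % 959 / 8))⁻¹ : Equiv.Perm (Fin 5)) : F5) = _
      rw [e9 _ hi, show (8 * j + i) / 8 = j by omega]
    rw [e, hinv] at h
    exact h
  · intro i hi
    have h := hE' _ _ (hWX true i hi)
    have e : bij (W i) (X true i) = cR (i + 1) := by
      show (if (8 * j + i) % 960 = (8 * j + i) % 959 then cR (((8 * j + i) % 959 + 1) % 8)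
        else cS (((8 * j + i) % 959 + 1) % 8)) = _
      rw [e0 _ (by omega), e9 _ hi, if_pos rfl, show (8 * j + i + 1) % 8 = i + 1 by omega]
    rw [e] at h
    exact h
  · intro i hi
    have h := hE' _ _ (hWX' true i hi)
    have e : bij (W (i + 1)) (X true i) = cS (i + 1) := by
      show (if (8 * j + (i + 1)) % 960 = (8 * j + i) % 959 then cR (((8 * j + i) % 959 + 1) % 8)
        else cS (((8 * j + i) % 959 + 1) % 8)) = _
      rw [e0 _ (by omega), e9 _ hi, if_neg (by omega), show (8 * j + i + 1) % 8 = i + 1 by omega]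
    rw [e] at h
    exact h

end Pool.Agent.Work.MP_fe1b94_co.H65
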